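import Mathlib

/-!
# A perfect set of inequivalent elements in a group with a complete bi-invariant metric
-/

set_option autoImplicit false

namespace SCO

open Filter Topology Set

section Myc

variable {G : Type*} [Group G] [MetricSpace G]

theorem dist_inv_mul_le (hl : ∀ a x y : G, dist (a * x) (a * y) = dist x y)
    (hr : ∀ a x y : G, dist (x * a) (y * a) = dist x y) (x y x' y' : G) :
    dist (x⁻¹ * y) (x'⁻¹ * y') ≤ dist x x' + dist y y' := by
  have h1 : dist (x⁻¹ * y) (x'⁻¹ * y) = dist x x' := by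
    rw [hr]
    have h2 := hl x x⁻¹ x'⁻¹
    rw [mul_inv_cancel] at h2
    have h3 := hr x' 1 (x * x'⁻¹)
    rw [one_mul, inv_mul_cancel_right] at h3
    rw [← h2, ← h3, dist_comm]
  have h2 : dist (x'⁻¹ * y) (x'⁻¹ * y') = dist y y' := hl _ _ _
  calc dist (x⁻¹ * y) (x'⁻¹ * y') ≤ dist (x⁻¹ * y) (x'⁻¹ * y) + dist (x'⁻¹ * y) (x'⁻¹ * y') :=
        dist_triangle _ _ _
    _ = _ := by rw [h1, h2]

/-- translates of a closed set with empty interior: the complement is open and dense -/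
theorem dense_translate (hl : ∀ a x y : G, dist (a * x) (a * y) = dist x y) {F : Set G}
    (hF : IsClosed F) (hi : interior F = ∅) (g : G) :
    IsOpen {x : G | g⁻¹ * x ∉ F} ∧ Dense {x : G | g⁻¹ * x ∉ F} := by
  have hc : ∀ a : G, Continuous fun x : G => a * x := fun a =>
    (Isometry.of_dist_eq fun x y => hl a x y).continuous
  refine ⟨(hF.preimage (hc g⁻¹)).isOpen_compl, ?_⟩
  rw [dense_iff_inter_open]
  rintro U hU ⟨x, hx⟩
  by_contra hne
  rw [not_nonempty_iff_eq_empty] at hne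
  have hsub : (fun y => g * y) ⁻¹' U ⊆ F := by
    intro y hy
    by_contra hyF
    have : g * y ∈ U ∩ {x : G | g⁻¹ * x ∉ F} := ⟨hy, by simpa using hyF⟩
    rw [hne] at this
    exact this
  have hopen : IsOpen ((fun y => g * y) ⁻¹' U) := hU.preimage (hc g)
  have := interior_maximal hsub hopen
  rw [hi] at this
  exact this (show g * (g⁻¹ * x) ∈ U by simpa using hx)

theorem exists_avoid (hl : ∀ a x y : G, dist (a * x) (a * y) = dist x y) {F : Set G}
    (hF : IsClosed F) (hi : interior F = ∅) {ι : Type*} (s : Finset ι) (c : ι → G) :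
    IsOpen {x : G | ∀ i ∈ s, (c i)⁻¹ * x ∉ F} ∧ Dense {x : G | ∀ i ∈ s, (c i)⁻¹ * x ∉ F} := by
  classical
  induction s using Finset.induction_on with
  | empty => simp
  | insert a s _ ih =>
    have e : {x : G | ∀ i ∈ insert a s, (c i)⁻¹ * x ∉ F} =
        {x : G | (c a)⁻¹ * x ∉ F} ∩ {x : G | ∀ i ∈ s, (c i)⁻¹ * x ∉ F} := by
      ext x; simp
    rw [e]
    have h1 := dense_translate hl hF hi (c a)
    exact ⟨h1.1.inter ih.1, h1.2.inter_of_isOpen_left ih.2 h1.1⟩

theorem exists_perturb (hl : ∀ a x y : G, dist (a * x) (a * y) = dist x y) {F : Set G}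
    (hF : IsClosed F) (hi : interior F = ∅) (hs : ∀ x ∈ F, x⁻¹ ∈ F) {ι : Type*} [Finite ι]
    (c : ι → G) {ε : ℝ} (hε : 0 < ε) :
    ∃ c' : ι → G, (∀ i, dist (c' i) (c i) < ε) ∧ ∀ i j, i ≠ j → (c' i)⁻¹ * c' j ∉ F := by
  classical
  have key : ∀ s : Finset ι, ∃ c' : ι → G, (∀ i, dist (c' i) (c i) < ε) ∧
      ∀ i ∈ s, ∀ j ∈ s, i ≠ j → (c' i)⁻¹ * c' j ∉ F := by
    intro s
    induction s using Finset.induction_on with
    | empty => exact ⟨c, fun i => by simpa using hε, by simp⟩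
    | insert a s ha ih =>
      obtain ⟨c', h1, h2⟩ := ih
      obtain ⟨x, hx1, hx2⟩ := (exists_avoid hl hF hi s c').2.exists_mem_open
        Metric.isOpen_ball ⟨c a, Metric.mem_ball_self hε⟩
      refine ⟨Function.update c' a x, fun i => ?_, fun i hi' j hj hij => ?_⟩
      · by_cases h : i = a
        · subst h; simpa using hx2
        · rw [Function.update_of_ne h]; exact h1 i
      · rcases Finset.mem_insert.1 hi' with rfl | his
        · rcases Finset.mem_insert.1 hj with rfl | hjs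
          · exact absurd rfl hij
          · rw [Function.update_self, Function.update_of_ne (Ne.symm hij)]
            intro hmem
            have := hs _ hmem
            rw [mul_inv_rev, inv_inv] at this
            exact hx1 j hjs this
        · rcases Finset.mem_insert.1 hj with rfl | hjs
          · rw [Function.update_self, Function.update_of_ne hij]
            exact hx1 i his
          · have hia : i ≠ a := fun h => ha (h ▸ his)
            have hja : j ≠ a := fun h => ha (h ▸ hjs)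
            rw [Function.update_of_ne hia, Function.update_of_ne hja]
            exact h2 i his j hjs hij
  have := Fintype.ofFinite ι
  obtain ⟨c', h1, h2⟩ := key Finset.univ
  exact ⟨c', h1, fun i j hij => h2 i (Finset.mem_univ _) j (Finset.mem_univ _) hij⟩

/-- separation at one level -/
def Sep (F : Set G) (k : ℕ) (c : (ℕ → Bool) → G) (r : ℝ) : Prop :=
  ∀ a b : ℕ → Bool, (∃ i < k, a i ≠ b i) → ∀ x y : G, dist x (c a) ≤ r → dist y (c b) ≤ r →
    x⁻¹ * y ∉ F

structure LevelOK (F : Set G) (k : ℕ) (s : ((ℕ → Bool) → G) × ℝ) : Prop where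
  pos : 0 < s.2
  loc : ∀ a b : ℕ → Bool, (∀ i < k, a i = b i) → s.1 a = s.1 b
  sep : Sep F k s.1 s.2

theorem exists_next (hl : ∀ a x y : G, dist (a * x) (a * y) = dist x y)
    (hr : ∀ a x y : G, dist (x * a) (y * a) = dist x y) {F : Set G}
    (hF : IsClosed F) (hi : interior F = ∅) (hs : ∀ x ∈ F, x⁻¹ ∈ F) (k : ℕ)
    (s : ((ℕ → Bool) → G) × ℝ) (hpos : 0 < s.2)
    (hloc : ∀ a b : ℕ → Bool, (∀ i < k, a i = b i) → s.1 a = s.1 b) :
    ∃ s' : ((ℕ → Bool) → G) × ℝ, LevelOK F (k + 1) s' ∧ s'.2 ≤ s.2 / 2 ∧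
      ∀ a, dist (s'.1 a) (s.1 a) ≤ s.2 / 2 := by
  classical
  let ι := Fin (k + 1) → Bool
  let ext : ι → (ℕ → Bool) := fun σ i => if h : i < k + 1 then σ ⟨i, h⟩ else false
  let res : (ℕ → Bool) → ι := fun a i => a i
  obtain ⟨c', h1, h2⟩ := exists_perturb hl hF hi hs (fun σ : ι => s.1 (ext σ))
    (half_pos hpos)
  have hext : ∀ a : ℕ → Bool, s.1 (ext (res a)) = s.1 a := fun a => hloc _ _ fun i hi => by
    simp only [ext, res]
    rw [dif_pos (by omega)]
  -- radii
  have hrad : ∀ p : ι × ι, ∀ᶠ r in 𝓝[>] (0 : ℝ), p.1 ≠ p.2 → ∀ x y : G,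
      dist x (c' p.1) ≤ r → dist y (c' p.2) ≤ r → x⁻¹ * y ∉ F := by
    rintro ⟨σ, ρ⟩
    by_cases hne : σ = ρ
    · exact Eventually.of_forall fun r h => absurd hne h
    · have hopen : IsOpen Fᶜ := hF.isOpen_compl
      obtain ⟨δ, hδ, hball⟩ := Metric.isOpen_iff.1 hopen _ (h2 σ ρ hne)
      have : ∀ᶠ r in 𝓝[>] (0 : ℝ), r < δ / 2 :=
        nhdsWithin_le_nhds (eventually_lt_nhds (half_pos hδ))
      filter_upwards [this] with r hr' _ x y hx hy
      refine hball ?_
      rw [Metric.mem_ball]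
      calc dist (x⁻¹ * y) ((c' σ)⁻¹ * c' ρ) ≤ dist x (c' σ) + dist y (c' ρ) :=
            dist_inv_mul_le hl hr _ _ _ _
        _ < δ := by
            have hx' : dist x (c' σ) ≤ r := hx
            have hy' : dist y (c' ρ) ≤ r := hy
            linarith
  have hall : ∀ᶠ r in 𝓝[>] (0 : ℝ), ∀ p : ι × ι, p.1 ≠ p.2 → ∀ x y : G,
      dist x (c' p.1) ≤ r → dist y (c' p.2) ≤ r → x⁻¹ * y ∉ F := Filter.eventually_all.2 hrad
  have hsmall : ∀ᶠ r in 𝓝[>] (0 : ℝ), r < s.2 / 2 :=
    nhdsWithin_le_nhds (eventually_lt_nhds (half_pos hpos))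
  have hpos' : ∀ᶠ r in 𝓝[>] (0 : ℝ), 0 < r := eventually_mem_nhdsWithin
  obtain ⟨r, ⟨hr1, hr2⟩, hr3⟩ := ((hall.and hsmall).and hpos').exists
  refine ⟨(fun a => c' (res a), r), ⟨hr3, fun a b hab => ?_, fun a b hab x y hx hy => ?_⟩,
    hr2.le, fun a => ?_⟩
  · have : res a = res b := by
      funext i; exact hab i i.2
    show c' (res a) = c' (res b)
    rw [this]
  · obtain ⟨i, hi1, hi2⟩ := hab
    refine hr1 (res a, res b) (fun h => hi2 ?_) x y hx hy
    exact congrFun h ⟨i, hi1⟩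
  · have := h1 (res a)
    simp only [hext] at this
    exact this.le

theorem mycielski [CompleteSpace G] (hl : ∀ a x y : G, dist (a * x) (a * y) = dist x y)
    (hr : ∀ a x y : G, dist (x * a) (y * a) = dist x y) (F : ℕ → Set G)
    (hF : ∀ n, IsClosed (F n)) (hmono : ∀ n, F n ⊆ F (n + 1)) (hs : ∀ n, ∀ x ∈ F n, x⁻¹ ∈ F n)
    (hi : ∀ n, interior (F n) = ∅) :
    ∃ φ : (ℕ → Bool) → G, ∀ a b, a ≠ b → ∀ n, (φ a)⁻¹ * φ b ∉ F n := by
  classical
  have hstep : ∀ k (s : ((ℕ → Bool) → G) × ℝ), LevelOK (F k) k s → ∃ s' : ((ℕ → Bool) → G) × ℝ,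
      LevelOK (F (k + 1)) (k + 1) s' ∧ s'.2 ≤ s.2 / 2 ∧ ∀ a, dist (s'.1 a) (s.1 a) ≤ s.2 / 2 :=
    fun k s h => exists_next hl hr (hF (k + 1)) (hi (k + 1)) (hs (k + 1)) k s h.pos h.loc
  choose nxt hn1 hn2 hn3 using hstep
  let st : (k : ℕ) → {s : ((ℕ → Bool) → G) × ℝ // LevelOK (F k) k s} := fun k =>
    Nat.rec ⟨(fun _ => 1, 1), ⟨one_pos, fun _ _ _ => rfl, fun a b ⟨i, hi, _⟩ => absurd hi (Nat.not_lt_zero i)⟩⟩
      (fun k s => ⟨nxt k s.1 s.2, hn1 k s.1 s.2⟩) k
  let c : ℕ → (ℕ → Bool) → G := fun k => (st k).1.1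
  let r : ℕ → ℝ := fun k => (st k).1.2
  have hr0 : ∀ k, 0 < r k := fun k => (st k).2.pos
  have hr1 : ∀ k, r (k + 1) ≤ r k / 2 := fun k => hn2 k (st k).1 (st k).2
  have hc1 : ∀ k a, dist (c (k + 1) a) (c k a) ≤ r k / 2 := fun k => hn3 k (st k).1 (st k).2
  have hrk : ∀ k j, r (k + j) ≤ r k * (1 / 2) ^ j := by
    intro k j
    induction j with
    | zero => simp
    | succ j ih =>
      rw [← add_assoc]
      calc r (k + j + 1) ≤ r (k + j) / 2 := hr1 _
        _ ≤ r k * (1 / 2) ^ j / 2 := by linarith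
        _ = _ := by ring
  have hcau : ∀ k a j, dist (c (k + j) a) (c k a) ≤ r k * (1 - (1 / 2) ^ j) := by
    intro k a j
    induction j with
    | zero => simp
    | succ j ih =>
      have h1 := hc1 (k + j) a
      have h2 := hrk k j
      have h3 := dist_triangle (c (k + j + 1) a) (c (k + j) a) (c k a)
      rw [← add_assoc]
      calc dist (c (k + j + 1) a) (c k a) ≤ r (k + j) / 2 + r k * (1 - (1 / 2) ^ j) := by linarith
        _ ≤ r k * (1 / 2) ^ j / 2 + r k * (1 - (1 / 2) ^ j) := by linarith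
        _ = _ := by ring
  have hcau' : ∀ k a j, dist (c (k + j) a) (c k a) ≤ r k := fun k a j => by
    refine (hcau k a j).trans ?_
    have := hr0 k
    have h2 : (0 : ℝ) ≤ (1 / 2) ^ j := by positivity
    nlinarith
  have hr_lim : Tendsto r atTop (𝓝 0) := by
    have h1 : Tendsto (fun j => r 0 * (1 / 2 : ℝ) ^ j) atTop (𝓝 (r 0 * 0)) :=
      (tendsto_pow_atTop_nhds_zero_of_lt_one (by norm_num) (by norm_num)).const_mul _
    rw [mul_zero] at h1
    refine squeeze_zero (fun k => (hr0 k).le) (fun k => ?_) h1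
    have := hrk 0 k
    rwa [zero_add] at this
  have hCS : ∀ a, CauchySeq fun k => c k a := by
    intro a
    rw [Metric.cauchySeq_iff']
    intro ε hε
    obtain ⟨N, hN⟩ := (tendsto_order.1 hr_lim).2 ε hε |>.exists
    refine ⟨N, fun n hn => ?_⟩
    obtain ⟨j, rfl⟩ := Nat.exists_eq_add_of_le hn
    exact (hcau' N a j).trans_lt hN
  choose φ hφ using fun a => cauchySeq_tendsto_of_complete (hCS a)
  have hφk : ∀ k a, dist (φ a) (c k a) ≤ r k := by
    intro k a
    have h1 : Tendsto (fun j => c (k + j) a) atTop (𝓝 (φ a)) := by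
      have := (tendsto_add_atTop_iff_nat k).2 (hφ a)
      simpa only [add_comm] using this
    exact le_of_tendsto (h1.dist tendsto_const_nhds) (Eventually.of_forall fun j => hcau' k a j)
  have hmono' : ∀ n m, n ≤ m → F n ⊆ F m := by
    intro n m h
    induction m, h using Nat.le_induction with
    | base => exact Subset.rfl
    | succ m _ ih => exact ih.trans (hmono m)
  refine ⟨φ, fun a b hab n => ?_⟩
  obtain ⟨i, hi'⟩ : ∃ i, a i ≠ b i := by
    by_contra h
    push Not at h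
    exact hab (funext h)
  have hk := (st (max n (i + 1))).2.sep a b ⟨i, lt_of_lt_of_le (Nat.lt_succ_self i)
    (le_max_right _ _), hi'⟩ (φ a) (φ b) (hφk _ a) (hφk _ b)
  exact fun h => hk (hmono' _ _ (le_max_left _ _) h)

end Myc

end SCO
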