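import Pool.Agent.Work.MP_52dd0f_an_helper59.ConnU
import Pool.Agent.Work.MP_52dd0f_an_helper59.Myc

/-!
# The unitary group with the 2-norm metric; stabilisers of orbits
-/

set_option autoImplicit false

namespace SCO

open Filter Topology
open scoped ComplexOrder ComplexConjugate

universe u v

/-- the unitary group of `M`, to be equipped with the 2-norm metric -/
def UG (M : Type u) [CStarAlgebra M] : Type u := unitary M

instance (M : Type u) [CStarAlgebra M] : Group (UG M) := inferInstanceAs (Group (unitary M))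

namespace UG

variable {M : Type u} [CStarAlgebra M]

/-- the underlying element -/
def val (g : UG M) : M := ((show unitary M from g) : M)

theorem val_injective : Function.Injective (val : UG M → M) := Subtype.val_injective

theorem val_star_mul (g : UG M) : star g.val * g.val = 1 :=
  Unitary.coe_star_mul_self (show unitary M from g)

theorem val_mul_star (g : UG M) : g.val * star g.val = 1 :=
  Unitary.coe_mul_star_self (show unitary M from g)

@[simp] theorem val_one : (1 : UG M).val = 1 := rfl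
@[simp] theorem val_mul (g h : UG M) : (g * h).val = g.val * h.val := rfl
@[simp] theorem val_inv (g : UG M) : (g⁻¹).val = star g.val := rfl

/-- constructor -/
def mk (x : M) (h : star x * x = 1) (h' : x * star x = 1) : UG M :=
  (⟨x, Unitary.mem_iff.2 ⟨h, h'⟩⟩ : unitary M)

@[simp] theorem val_mk (x : M) (h : star x * x = 1) (h' : x * star x = 1) : (mk x h h').val = x := rfl

variable [TrC M]

noncomputable instance : MetricSpace (UG M) where
  dist g h := n2 (g.val - h.val)
  dist_self g := by simp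
  dist_comm g h := n2_sub_comm _ _
  dist_triangle g h k := n2_triangle _ _ _
  eq_of_dist_eq_zero h := val_injective (sub_eq_zero.1 (n2_eq_zero.1 h))

theorem dist_def (g h : UG M) : dist g h = n2 (g.val - h.val) := rfl

theorem dist_mul_left' (a x y : UG M) : dist (a * x) (a * y) = dist x y := by
  rw [dist_def, dist_def, val_mul, val_mul, ← mul_sub, n2_isometry_mul a.val_star_mul]

theorem dist_mul_right' (a x y : UG M) : dist (x * a) (y * a) = dist x y := by
  rw [dist_def, dist_def, val_mul, val_mul, ← sub_mul, n2_mul_coisometry a.val_mul_star]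

theorem norm_val_le (g : UG M) : ‖g.val‖ ≤ 1 := norm_le_one_of_star_mul g.val_star_mul

theorem tendsto_iff_T2 {ι : Type*} {l : Filter ι} {x : ι → UG M} {y : UG M} :
    Tendsto x l (𝓝 y) ↔ T2 l (fun k => (x k).val) y.val := by
  rw [tendsto_iff_dist_tendsto_zero]; rfl

end UG

instance UG.complete {M : Type u} [CStarAlgebra M] [TVN M] : CompleteSpace (UG M) := by
  refine Metric.complete_of_cauchySeq_tendsto fun x hx => ?_
  obtain ⟨y, hy1, hy⟩ := exists_limit (x := fun k => (x k).val) (C := 1)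
    (fun k => (x k).norm_val_le) (fun ε hε => by
      obtain ⟨N, hN⟩ := Metric.cauchySeq_iff.1 hx ε hε
      exact ⟨N, fun k hk l hl => hN k hk l hl⟩)
  have h1 : star y * y = 1 := by
    refine T2.unique (T2.mul (C := 1) (fun k => by rw [norm_star]; exact (x k).norm_val_le)
      hy.star hy) ((T2.const (1 : M)).congr' (Eventually.of_forall fun k => ?_))
    exact ((x k).val_star_mul).symm
  have h2 : y * star y = 1 := by
    refine T2.unique (T2.mul (C := 1) (fun k => (x k).norm_val_le)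
      hy hy.star) ((T2.const (1 : M)).congr' (Eventually.of_forall fun k => ?_))
    exact ((x k).val_mul_star).symm
  exact ⟨UG.mk y h1 h2, UG.tendsto_iff_T2.2 (by simpa using hy)⟩

section Stab

variable {M : Type u} [CStarAlgebra M] [TrC M]

/-- conjugate of `x` by `g` -/
def cj (g : UG M) (x : M) : M := g.val * x * star g.val

omit [TrC M] in
theorem cj_mul (g h : UG M) (x : M) : cj (g * h) x = cj g (cj h x) := by
  simp only [cj, UG.val_mul, star_mul]; noncomm_ring

omit [TrC M] in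
@[simp] theorem cj_one (x : M) : cj (1 : UG M) x = x := by simp [cj]

omit [TrC M] in
theorem cj_inv_cj (g : UG M) (x : M) : cj g⁻¹ (cj g x) = x := by
  rw [← cj_mul, inv_mul_cancel, cj_one]

omit [TrC M] in
theorem cj_cj_inv (g : UG M) (x : M) : cj g (cj g⁻¹ x) = x := by
  rw [← cj_mul, mul_inv_cancel, cj_one]

theorem HaarU.cj {u : M} (h : HaarU u) (g : UG M) : HaarU (cj g u) :=
  h.conj g.val_star_mul g.val_mul_star

theorem Conn.cj {n : ℕ} {u v : M} (h : Conn n u v) (g : UG M) :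
    Conn n (SCO.cj g u) (SCO.cj g v) :=
  h.conj g.val_star_mul g.val_mul_star

/-- unitaries `g` such that `u` and `g u g*` are connected through `n` intermediate steps -/
def Stb (u : M) (n : ℕ) : Set (UG M) := {g | Conn n u (cj g u)}

theorem Stb.one_mem {u : M} (hu : HaarU u) : (1 : UG M) ∈ Stb u 0 := by
  show Conn 0 u (cj 1 u)
  rw [cj_one]; exact Conn.refl hu

theorem Stb.inv_mem {u : M} {n : ℕ} {g : UG M} (h : g ∈ Stb u n) : g⁻¹ ∈ Stb u n := by
  have h1 : Conn n u (cj g u) := h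
  have h2 := h1.cj g⁻¹
  rw [cj_inv_cj] at h2
  exact h2.symm

theorem Stb.mul_mem {u : M} {n m : ℕ} {g h : UG M} (hg : g ∈ Stb u n) (hh : h ∈ Stb u m) :
    g * h ∈ Stb u (n + m + 1) := by
  have h1 : Conn n u (cj g u) := hg
  have h2 : Conn m u (cj h u) := hh
  have h3 := h2.cj g
  rw [← cj_mul] at h3
  exact h1.trans h3

theorem Stb.mono {u : M} {n m : ℕ} (h : n ≤ m) : Stb u n ⊆ Stb u m :=
  fun _ hg => Conn.mono hg h

theorem Stb.isClosed {u : M} (hu : HaarU u) (n : ℕ) : IsClosed (Stb u n) := by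
  rw [← isSeqClosed_iff_isClosed]
  intro x g hx hg
  have h1 : T2 atTop (fun k => (x k).val) g.val := UG.tendsto_iff_T2.1 hg
  have h2 : T2 atTop (fun k => cj (x k) u) (cj g u) := by
    refine T2.mul (C := ‖u‖) (fun k => ?_) (h1.mul_const u) h1.star
    exact (norm_mul_le _ _).trans (mul_le_of_le_one_left (norm_nonneg _) (x k).norm_val_le)
  exact Conn.of_T2 hu (hu.cj g) (T2.const u) h2 hx

/-- a stabiliser piece with interior contains a ball at `1` -/
theorem Stb.ball_of_interior {u : M} {n : ℕ} (h : (interior (Stb u n)).Nonempty) :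
    ∃ δ > 0, Metric.ball (1 : UG M) δ ⊆ Stb u (n + n + 1) := by
  obtain ⟨g₀, hg₀⟩ := h
  obtain ⟨δ, hδ, hball⟩ := Metric.isOpen_iff.1 isOpen_interior g₀ hg₀
  refine ⟨δ, hδ, fun g hg => ?_⟩
  have h1 : g₀ * g ∈ Stb u n := by
    apply interior_subset
    apply hball
    rw [Metric.mem_ball]
    calc dist (g₀ * g) g₀ = dist (g₀ * g) (g₀ * 1) := by rw [mul_one]
      _ = dist g 1 := UG.dist_mul_left' _ _ _
      _ < δ := hg
  have h2 : g₀ ∈ Stb u n := interior_subset hg₀
  have h3 := Stb.mul_mem (Stb.inv_mem h2) h1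
  rwa [inv_mul_cancel_left] at h3

end Stab

section Orbits

variable {M : Type u} [CStarAlgebra M] [TrC M]

theorem seqComm_equivalence {𝒰 : Ultrafilter ℕ} (h𝒰 : (𝒰 : Filter ℕ) ≤ atTop) :
    Equivalence (SeqComm 𝒰 (tr : M →ₗ[ℂ] ℂ)) where
  refl _ := Relation.ReflTransGen.refl
  symm {a b} h := by
    obtain ⟨n, hn⟩ := exists_conn_of_seqComm h
    exact (seqComm_iff h𝒰).2 ⟨n, hn.symm⟩
  trans h h' := Relation.ReflTransGen.trans h h'

theorem quot_mk_eq_iff {𝒰 : Ultrafilter ℕ} (h𝒰 : (𝒰 : Filter ℕ) ≤ atTop)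
    {a b : Haar (tr : M →ₗ[ℂ] ℂ)} :
    Quot.mk (SeqComm 𝒰 tr) a = Quot.mk (SeqComm 𝒰 tr) b ↔ SeqComm 𝒰 tr a b := by
  constructor
  · intro h
    exact (Equivalence.eqvGen_iff (seqComm_equivalence h𝒰)).1 (Quot.eqvGen_exact h)
  · exact fun h => Quot.sound h

theorem numOrbits_eq_one_iff {𝒰 : Ultrafilter ℕ} (h𝒰 : (𝒰 : Filter ℕ) ≤ atTop) :
    numOrbits 𝒰 (tr : M →ₗ[ℂ] ℂ) = 1 ↔
      Nonempty (Haar (tr : M →ₗ[ℂ] ℂ)) ∧ ∀ a b : Haar (tr : M →ₗ[ℂ] ℂ), SeqComm 𝒰 tr a b := by
  rw [numOrbits, Cardinal.eq_one_iff_unique]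
  constructor
  · rintro ⟨h1, ⟨q⟩⟩
    obtain ⟨a, -⟩ := Quot.exists_rep q
    exact ⟨⟨a⟩, fun a b => (quot_mk_eq_iff h𝒰).1 (Subsingleton.elim _ _)⟩
  · rintro ⟨⟨a⟩, h⟩
    refine ⟨⟨fun p q => ?_⟩, ⟨Quot.mk _ a⟩⟩
    obtain ⟨x, rfl⟩ := Quot.exists_rep p
    obtain ⟨y, rfl⟩ := Quot.exists_rep q
    exact Quot.sound (h x y)

theorem mk_le_continuum_of_separable (h : IsSeparable₂ (tr : M →ₗ[ℂ] ℂ)) :
    Cardinal.mk M ≤ Cardinal.continuum.{u} := by
  obtain ⟨s, hs, hd⟩ := h
  choose f hf1 hf2 using fun (x : M) (k : ℕ) => hd x (1 / ((k : ℝ) + 1)) (by positivity)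
  have hinj : Function.Injective fun (x : M) (k : ℕ) => (⟨f x k, hf1 x k⟩ : s) := by
    intro x y hxy
    have h1 : ∀ k, f x k = f y k := fun k => congrArg Subtype.val (congrFun hxy k)
    have h2 : T2 atTop (f x) x := by
      refine squeeze_zero (fun _ => n2_nonneg _) (fun k => ?_)
        tendsto_one_div_add_atTop_nhds_zero_nat
      rw [n2_sub_comm]; exact (hf2 x k).le
    have h3 : T2 atTop (f y) y := by
      refine squeeze_zero (fun _ => n2_nonneg _) (fun k => ?_)
        tendsto_one_div_add_atTop_nhds_zero_nat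
      rw [n2_sub_comm]; exact (hf2 y k).le
    refine T2.unique h2 (h3.congr' (Eventually.of_forall fun k => (h1 k).symm))
  have h1 := Cardinal.mk_le_of_injective hinj
  have h2 : Cardinal.mk s ≤ Cardinal.aleph0 := Cardinal.mk_le_aleph0_iff.2 hs.to_subtype
  calc Cardinal.mk M ≤ Cardinal.mk (ℕ → s) := h1
    _ = Cardinal.mk s ^ Cardinal.lift.{u} (Cardinal.mk ℕ) := by simp
    _ ≤ Cardinal.aleph0 ^ Cardinal.lift.{u} (Cardinal.mk ℕ) := Cardinal.power_le_power_right h2
    _ = Cardinal.continuum := by simp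

end Orbits

/-- If the stabiliser pieces of a Haar unitary have no interior then there are continuum many
orbits. -/
theorem numOrbits_eq_continuum {M : Type u} [CStarAlgebra M] [TVN M] {𝒰 : Ultrafilter ℕ}
    (h𝒰 : (𝒰 : Filter ℕ) ≤ atTop) (hsep : IsSeparable₂ (tr : M →ₗ[ℂ] ℂ)) {u : M} (hu : HaarU u)
    (hint : ∀ n, interior (Stb u n) = ∅) :
    numOrbits 𝒰 (tr : M →ₗ[ℂ] ℂ) = Cardinal.continuum.{u} := by
  apply le_antisymm
  · have h1 : Cardinal.mk (Quot (SeqComm 𝒰 (tr : M →ₗ[ℂ] ℂ))) ≤ Cardinal.mk (Haar (tr : M →ₗ[ℂ] ℂ)) :=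
      Cardinal.mk_le_of_surjective (Quot.mk_surjective)
    have h2 : Cardinal.mk (Haar (tr : M →ₗ[ℂ] ℂ)) ≤ Cardinal.mk M :=
      Cardinal.mk_le_of_injective (f := fun a : Haar (tr : M →ₗ[ℂ] ℂ) => (a.1 : M))
        fun a b h => Haar.ext' h
    exact h1.trans (h2.trans (mk_le_continuum_of_separable hsep))
  · obtain ⟨φ, hφ⟩ := mycielski (G := UG M) UG.dist_mul_left' UG.dist_mul_right' (Stb u)
      (Stb.isClosed hu) (fun n => Stb.mono (Nat.le_succ n)) (fun n g hg => Stb.inv_mem hg) hint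
    have hinj : Function.Injective fun a : ℕ → Bool =>
        (Quot.mk (SeqComm 𝒰 (tr : M →ₗ[ℂ] ℂ)) (hu.cj (φ a)).toHaar) := by
      intro a b hab
      by_contra hne
      have h1 := (quot_mk_eq_iff h𝒰).1 hab
      obtain ⟨n, hn⟩ := exists_conn_of_seqComm h1
      have h2 : Conn n (cj (φ a) u) (cj (φ b) u) := hn
      have h3 := h2.cj (φ a)⁻¹
      rw [cj_inv_cj, ← cj_mul] at h3
      exact hφ a b hne n h3
    have h1 := Cardinal.lift_mk_le_lift_mk_of_injective hinj
    have h2 : Cardinal.lift.{u} (Cardinal.mk (ℕ → Bool)) = Cardinal.continuum.{u} := by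
      simp
    rw [h2] at h1
    simpa [numOrbits] using h1

end SCO
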