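import Pool.Agent.Work.MP_52dd0f_an.Up

/-!
# Haar unitaries have no eigenvectors; chains with three intermediates in corners
-/

set_option linter.unusedSectionVars false
set_option autoImplicit false

namespace SCO

open Filter Topology
open scoped ComplexOrder ComplexConjugate

universe u v

section

variable {M : Type u} [CStarAlgebra M] [TrC M]

/-- `∑_{k<K} c^k d^k` -/
noncomputable def geo (d e : M) (c : ℂ) : ℕ → M
  | 0 => 0
  | K + 1 => e + c • (d * geo d e c K)

theorem geo_tr {d e : M} {c : ℂ} (he : ∀ j : ℕ, 1 ≤ j → d ^ j * e = d ^ j)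
    (hd : ∀ j : ℕ, 1 ≤ j → tr (d ^ j) = 0) (K : ℕ) : ∀ j : ℕ, 1 ≤ j → tr (d ^ j * geo d e c K) = 0 := by
  induction K with
  | zero => intro j _; simp [geo]
  | succ K ih =>
    intro j hj
    have e1 : d ^ j * (e + c • (d * geo d e c K)) = d ^ j + c • (d ^ (j + 1) * geo d e c K) := by
      rw [mul_add, he j hj, mul_smul_comm, ← mul_assoc, ← pow_succ]
    rw [geo, e1, map_add, hd j hj, map_smul, ih (j + 1) (by omega)]
    simp

theorem n2_add_sq (x y : M) : n2 (x + y) ^ 2 = n2 x ^ 2 + n2 y ^ 2 + 2 * (tr (star x * y)).re := by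
  rw [n2_sq, n2_sq, n2_sq, star_add, add_mul, mul_add, mul_add, map_add, map_add, map_add]
  have h : tr (star y * x) = conj (tr (star x * y)) := by
    rw [← tr_star, star_mul, star_star]
  simp only [Complex.add_re, h, Complex.conj_re]
  ring

end

section

variable {M : Type u} [CStarAlgebra M] [TVN M]

theorem IsHaarIn.pow_mul_right {e d : M} (he : IsProj e) (h : IsHaarIn e d) (j : ℕ) (hj : 1 ≤ j) :
    d ^ j * e = d ^ j := by
  obtain ⟨k, rfl⟩ : ∃ k, j = k + 1 := ⟨j - 1, by omega⟩
  rw [pow_succ, mul_assoc, h.mul_right he]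

theorem geo_left {e d : M} (he : IsProj e) (h : IsHaarIn e d) (c : ℂ) (K : ℕ) :
    e * geo d e c K = geo d e c K := by
  cases K with
  | zero => simp [geo]
  | succ K => rw [geo, mul_add, he.mul, mul_smul_comm, ← mul_assoc, h.mul_left he]

theorem geo_n2 {e d : M} (he : IsProj e) (h : IsHaarIn e d) {c : ℂ} (hc : ‖c‖ = 1) (K : ℕ) :
    n2 (geo d e c K) ^ 2 = K * tau e := by
  induction K with
  | zero => simp [geo]
  | succ K ih =>
    rw [geo, n2_add_sq, ← he.tau_eq, n2_smul, hc, one_mul]
    have h1 : n2 (d * geo d e c K) ^ 2 = K * tau e := by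
      rw [← ih, n2_sq, n2_sq, star_mul]
      have : star (geo d e c K) * star d * (d * geo d e c K) =
          star (geo d e c K) * ((star d * d) * geo d e c K) := by noncomm_ring
      rw [this, h.src, geo_left he h]
    have h2 : tr (star e * c • (d * geo d e c K)) = 0 := by
      rw [he.star, mul_smul_comm, map_smul, ← mul_assoc, h.mul_left he]
      have := geo_tr (d := d) (e := e) (c := c) (h.pow_mul_right he) h.tr K 1 le_rfl
      rw [pow_one] at this
      rw [this, smul_zero]
    rw [h1, h2]
    push_cast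
    simp only [Complex.zero_re, mul_zero, add_zero]
    ring

/-- a Haar unitary (of a corner) has no eigenprojection -/
theorem no_eigen {e d : M} (he : IsProj e) (h : IsHaarIn e d) {f : M} (hf : IsProj f)
    (hfe : e * f = f) {c : ℂ} (hdf : d * f = c • f) : f = 0 := by
  by_contra hf0
  have hft := hf.tau_pos hf0
  -- `‖c‖ = 1`
  have hc : ‖c‖ = 1 := by
    have h1 : n2 (d * f) ^ 2 = n2 f ^ 2 := by
      rw [n2_sq, n2_sq, star_mul]
      have : star f * star d * (d * f) = star f * ((star d * d) * f) := by noncomm_ring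
      rw [this, h.src, hfe]
    rw [hdf, n2_smul, mul_pow, ← hf.tau_eq] at h1
    have h2 : ‖c‖ ^ 2 = 1 := by
      have := mul_right_cancel₀ hft.ne' (h1.trans (one_mul _).symm)
      exact this
    nlinarith [norm_nonneg c]
  have hcc : conj c * c = 1 := by
    rw [mul_comm, Complex.mul_conj, Complex.normSq_eq_norm_sq, hc]; norm_num
  have hcn : ‖conj c‖ = 1 := by rw [Complex.norm_conj, hc]
  have hgf : ∀ K : ℕ, geo d e (conj c) K * f = (K : ℂ) • f := by
    intro K
    induction K with
    | zero => simp [geo]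
    | succ K ih =>
      rw [geo, add_mul, hfe, smul_mul_assoc, mul_assoc, ih, mul_smul_comm, hdf, smul_smul, smul_smul]
      have : conj c * (K : ℂ) * c = K := by
        calc conj c * (K : ℂ) * c = (conj c * c) * K := by ring
          _ = K := by rw [hcc, one_mul]
      rw [this]
      push_cast
      module
  have hb : ∀ K : ℕ, (K : ℝ) * tau f ≤ tau e := by
    intro K
    rcases Nat.eq_zero_or_pos K with rfl | hK
    · simpa using he.tau_nonneg
    have h1 := norm_tr_mul_le (star (geo d e (conj c) K)) f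
    rw [star_star, hgf, map_smul, hf.tr_eq, n2_star] at h1
    have h2 : ‖(K : ℂ) • ((tau f : ℝ) : ℂ)‖ = K * tau f := by
      rw [norm_smul, Complex.norm_real, Real.norm_eq_abs, abs_of_pos hft]
      simp
    rw [h2] at h1
    have h3 : ((K : ℝ) * tau f) ^ 2 ≤ (n2 (geo d e (conj c) K) * n2 f) ^ 2 :=
      pow_le_pow_left₀ (by positivity) h1 2
    rw [mul_pow (n2 _), geo_n2 he h hcn, ← hf.tau_eq] at h3
    have hKp : (0 : ℝ) < K := by exact_mod_cast hK
    have h4 : (K : ℝ) * tau f * ((K : ℝ) * tau f) ≤ tau e * ((K : ℝ) * tau f) := by nlinarith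
    exact le_of_mul_le_mul_right h4 (by positivity)
  obtain ⟨K, hK⟩ := exists_nat_gt (tau e / tau f)
  have := hb K
  rw [div_lt_iff₀ hft] at hK
  linarith

/-- if `S` contains a Haar unitary `w` that is in the commutant of `S`, then the commutant of `S`
has no minimal projection -/
theorem noMin_of_haar {S : Set M} (hS : StarClosed S) {w : M} (hw : HaarU w) (hwS : w ∈ S)
    (hwC : Co S w) : NoMin S := by
  intro e heS he he0
  by_contra hcon
  push Not at hcon
  have hmin : ∀ f, Co S f → IsProj f → f * e = f → f = 0 ∨ f = e := fun f hfS hf hfe => by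
    by_contra h; push Not at h; exact h.2 (hcon f hfS hf hfe h.1)
  obtain ⟨c, hc⟩ := scalar_of_minimal' hS he heS hmin hwC
  have hwe : w * e = c • e := by
    rw [← hc, ← heS w hwS, mul_assoc, he.mul]
  exact he0 (no_eigen IsProj.one hw.isHaarIn he (one_mul e) hwe)

/-- the bicommutant-type set -/
def Cen (T : Set M) : Set M := {x | ∀ t ∈ T, t * x = x * t}

theorem Cen.starClosed {T : Set M} (hT : StarClosed T) : StarClosed (Cen T) := by
  intro x hx t ht
  have := congrArg star (hx _ (hT t ht))
  rw [star_mul, star_mul, star_star] at this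
  exact this.symm

theorem mem_Cen {T : Set M} {x : M} : x ∈ Cen T ↔ Co T x := Iff.rfl

theorem noMin_mid {p w₁ w₂ w₃ : M} (hp : IsProj p) (h₂ : HaarU w₂)
    (h12 : w₁ * w₂ = w₂ * w₁) (h12' : star w₁ * w₂ = w₂ * star w₁) (h23 : w₃ * w₂ = w₂ * w₃)
    (h23' : star w₃ * w₂ = w₂ * star w₃)
    (hp1 : w₁ * p = p * w₁) (hp3 : w₃ * p = p * w₃) :
    NoMin ({w₁, star w₁, w₃, star w₃, p} : Set M) := by
  have hp1' : star w₁ * p = p * star w₁ := by
    have := congrArg star hp1; rw [star_mul, star_mul, hp.star] at this; exact this.symm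
  have hp3' : star w₃ * p = p * star w₃ := by
    have := congrArg star hp3; rw [star_mul, star_mul, hp.star] at this; exact this.symm
  set S : Set M := {w₁, star w₁, w₃, star w₃, p} with hSdef
  have hS : StarClosed S := by
    intro s hs
    simp only [hSdef, Set.mem_insert_iff, Set.mem_singleton_iff] at hs ⊢
    rcases hs with rfl | rfl | rfl | rfl | rfl
    · simp
    · simp
    · simp
    · simp
    · simp [hp.star]
  have hpS : Co S p := by
    intro s hs
    simp only [hSdef, Set.mem_insert_iff, Set.mem_singleton_iff] at hs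
    rcases hs with rfl | rfl | rfl | rfl | rfl
    · exact hp1
    · exact hp1'
    · exact hp3
    · exact hp3'
    · rfl
  intro d hdS hd hd0
  by_contra hcon
  push Not at hcon
  have hmin : ∀ f, Co S f → IsProj f → f * d = f → f = 0 ∨ f = d := fun f hfS hf hfe => by
    by_contra h; push Not at h; exact h.2 (hcon f hfS hf hfe h.1)
  have hdp : p * d = d * p := hdS p (by simp [hSdef])
  have hdpP : IsProj (d * p) := by
    refine ⟨?_, ?_⟩
    · calc d * p * (d * p) = d * (p * d) * p := by noncomm_ring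
        _ = (d * d) * (p * p) := by rw [hdp]; noncomm_ring
        _ = d * p := by rw [hd.mul, hp.mul]
    · rw [star_mul, hd.star, hp.star, hdp]
  have hdpd : d * p * d = d * p := by rw [mul_assoc, hdp, ← mul_assoc, hd.mul]
  obtain ⟨q, hq, hqd, hqp, hqw⟩ : ∃ q : M, IsProj q ∧ q * d = d ∧
      (∀ x, p * (q * x * q) = (q * x * q) * p) ∧ (∀ s, s * p = p * s → s * q = q * s) := by
    rcases hmin _ (hdS.mul hpS) hdpP hdpd with h0 | h0
    · refine ⟨1 - p, hp.compl, ?_, ?_, ?_⟩
      · rw [sub_mul, one_mul, hdp, h0, sub_zero]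
      · intro x
        have e1 : p * (1 - p) = 0 := by rw [mul_sub, mul_one, hp.mul, sub_self]
        have e2 : (1 - p) * p = 0 := by rw [sub_mul, one_mul, hp.mul, sub_self]
        rw [mul_assoc, ← mul_assoc p, e1, zero_mul, mul_assoc, mul_assoc, e2, mul_zero, mul_zero]
      · intro s hs; rw [mul_sub, sub_mul, mul_one, one_mul, hs]
    · refine ⟨p, hp, ?_, ?_, fun s hs => hs⟩
      · rw [hdp, h0]
      · intro x
        rw [mul_assoc, ← mul_assoc p, hp.mul, mul_assoc, mul_assoc, hp.mul]
  have hdq : d * q = d := by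
    have := congrArg star hqd
    rwa [star_mul, hd.star, hq.star] at this
  have key : ∀ x, w₁ * x = x * w₁ → star w₁ * x = x * star w₁ → w₃ * x = x * w₃ →
      star w₃ * x = x * star w₃ → ∃ c : ℂ, d * x * d = c • d := by
    intro x hx1 hx2 hx3 hx4
    have hgen : ∀ s, s * p = p * s → s * x = x * s → s * (q * x * q) = (q * x * q) * s := by
      intro s hs hsx
      have := hqw s hs
      calc s * (q * x * q) = (s * q) * x * q := by noncomm_ring
        _ = q * (s * x) * q := by rw [this]; noncomm_ring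
        _ = q * x * (s * q) := by rw [hsx]; noncomm_ring
        _ = (q * x * q) * s := by rw [this]; noncomm_ring
    have hco : Co S (q * x * q) := by
      intro s hs
      simp only [hSdef, Set.mem_insert_iff, Set.mem_singleton_iff] at hs
      rcases hs with rfl | rfl | rfl | rfl | rfl
      · exact hgen _ hp1 hx1
      · exact hgen _ hp1' hx2
      · exact hgen _ hp3 hx3
      · exact hgen _ hp3' hx4
      · exact hqp x
    obtain ⟨c, hc⟩ := scalar_of_minimal' hS hd hdS hmin hco
    refine ⟨c, ?_⟩
    rw [← hc]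
    calc d * x * d = (d * q) * x * (q * d) := by rw [hqd, hdq]
      _ = d * (q * x * q) * d := by noncomm_ring
  -- small projections in the algebra generated by `w₂`
  have hT : StarClosed ({w₂, star w₂} : Set M) := (commSet_unitary h₂.isom h₂.coisom).star
  have hS2 := Cen.starClosed hT
  have hw2 : w₂ ∈ Cen ({w₂, star w₂} : Set M) := by
    intro t ht
    rcases ht with rfl | ht
    · rfl
    · rw [Set.mem_singleton_iff.1 ht, h₂.isom, h₂.coisom]
  have hN2 : NoMin (Cen ({w₂, star w₂} : Set M)) :=
    noMin_of_haar hS2 h₂ hw2 (fun s hs => (hs w₂ (by simp)).symm)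
  have hmem : ∀ s, s * w₂ = w₂ * s → star s * w₂ = w₂ * star s → s ∈ Cen ({w₂, star w₂} : Set M) := by
    intro s h1 h2 t ht
    rcases ht with rfl | ht
    · exact h1.symm
    · rw [Set.mem_singleton_iff.1 ht]
      have := congrArg star h2
      rw [star_mul, star_mul, star_star] at this
      exact this
  have hdt := hd.tau_pos hd0
  obtain ⟨k, hk⟩ := exists_nat_gt (1 / tau d)
  have hk0 : (0 : ℝ) < k := lt_trans (by positivity) hk
  have hkd : 1 / (k : ℝ) < tau d := by
    rw [div_lt_iff₀ hk0]; rw [div_lt_iff₀ hdt] at hk; linarith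
  obtain ⟨e, heS, he, het, heo, hes⟩ := exists_partition hN2 (1 / (k : ℝ)) (by positivity) k 1 Co.one
    IsProj.one (by rw [tau_one]; field_simp)
  have hec : ∀ i, ∃ c : ℂ, d * e i * d = c • d := fun i =>
    key (e i) (heS i _ (hmem _ h12 h12')) (heS i _ (hmem _ h12' (by rw [star_star]; exact h12)))
      (heS i _ (hmem _ h23 h23')) (heS i _ (hmem _ h23' (by rw [star_star]; exact h23)))
  choose c hc using hec
  obtain ⟨i, hi⟩ : ∃ i, c i ≠ 0 := by
    by_contra hall
    push Not at hall
    apply hd0
    calc d = d * 1 * d := by rw [mul_one, hd.mul]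
      _ = ∑ i, d * e i * d := by rw [← hes, Finset.mul_sum, Finset.sum_mul]
      _ = 0 := Finset.sum_eq_zero fun i _ => by rw [hc, hall, zero_smul]
  -- `μ = c i` is real positive
  have htr : tr (d * e i * d) = c i * tau d := by rw [hc, map_smul, smul_eq_mul, hd.tr_eq]
  set f : M := (c i)⁻¹ • (e i * d * e i) with hf
  have hff : f * f = f := by
    rw [hf, smul_mul_assoc, mul_smul_comm, smul_smul]
    have e1 : e i * d * e i * (e i * d * e i) = c i • (e i * d * e i) := by
      calc e i * d * e i * (e i * d * e i) = e i * (d * (e i * e i) * d) * e i := by noncomm_ring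
        _ = c i • (e i * d * e i) := by rw [(he i).mul, hc, mul_smul_comm, smul_mul_assoc]
    rw [e1, smul_smul]
    congr 1
    field_simp
  have hcr : conj (c i) = c i := by
    have h1 : star (d * e i * d) = d * e i * d := by
      rw [star_mul, star_mul, hd.star, (he i).star, mul_assoc]
    rw [hc, star_smul, hd.star] at h1
    have h2 : (star (c i) - c i) • d = 0 := by rw [sub_smul, h1, sub_self]
    rcases smul_eq_zero.1 h2 with h3 | h3
    · exact sub_eq_zero.1 h3
    · exact absurd h3 hd0
  have hfs : star f = f := by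
    rw [hf, star_smul, star_mul, star_mul, hd.star, (he i).star, ← mul_assoc]
    congr 1
    rw [star_inv₀]
    congr 1
  have hfP : IsProj f := ⟨hff, hfs⟩
  have hfe : f * e i = f := by
    rw [hf, smul_mul_assoc, mul_assoc, (he i).mul]
  have h1 := tau_le_of_le hfP (he i) hfe
  have h2 : tau f = tau d := by
    have : tr f = tr d := by
      rw [hf, map_smul]
      have e1 : tr (e i * d * e i) = tr (d * e i * d) := by
        rw [tr_comm (e i * d) (e i), ← mul_assoc, (he i).mul, tr_comm (d * e i) d, ← mul_assoc, hd.mul,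
          tr_comm]
      rw [e1, htr, smul_eq_mul, hd.tr_eq, ← mul_assoc, inv_mul_cancel₀ hi, one_mul]
    rw [tau, this]; rfl
  rw [h2, het] at h1
  linarith

/-- chains with three intermediates pass to corners -/
theorem chain_in_corner {p a b w₁ w₂ w₃ : M} (hp : IsProj p) (h₁ : HaarU w₁) (h₂ : HaarU w₂)
    (h₃ : HaarU w₃) (h12 : w₁ * w₂ = w₂ * w₁) (h23 : w₂ * w₃ = w₃ * w₂)
    (hp1 : w₁ * p = p * w₁) (hp3 : w₃ * p = p * w₃) (hap : p * a = a ∧ a * p = a)
    (hbp : p * b = b ∧ b * p = b) (ha : w₁ * a = a * w₁)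
    (ha' : star w₁ * a = a * star w₁) (hb : w₃ * b = b * w₃) (hb' : star w₃ * b = b * star w₃) :
    ∃ z₁ z₂ z₃ : M, IsHaarIn p z₁ ∧ IsHaarIn p z₂ ∧ IsHaarIn p z₃ ∧ a * z₁ = z₁ * a ∧
      z₁ * z₂ = z₂ * z₁ ∧ z₂ * z₃ = z₃ * z₂ ∧ z₃ * b = b * z₃ := by
  -- star versions
  have hstar : ∀ {x y : M}, star x * x = 1 → x * star x = 1 → x * y = y * x →
      star x * y = y * star x := by
    intro x y h1 h2 h
    calc star x * y = star x * y * (x * star x) := by rw [h2, mul_one]
      _ = star x * (y * x) * star x := by noncomm_ring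
      _ = star x * (x * y) * star x := by rw [h]
      _ = (star x * x) * y * star x := by noncomm_ring
      _ = y * star x := by rw [h1, one_mul]
  have hN := noMin_mid hp h₂ h12 (hstar h₁.isom h₁.coisom h12) h23.symm
    (hstar h₃.isom h₃.coisom h23.symm) hp1 hp3
  have hp1' := hstar h₁.isom h₁.coisom hp1
  have hp3' := hstar h₃.isom h₃.coisom hp3
  have hpS : Co ({w₁, star w₁, w₃, star w₃, p} : Set M) p := by
    intro s hs
    simp only [Set.mem_insert_iff, Set.mem_singleton_iff] at hs
    rcases hs with rfl | rfl | rfl | rfl | rfl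
    · exact hp1
    · exact hp1'
    · exact hp3
    · exact hp3'
    · rfl
  obtain ⟨h, hh⟩ := exists_halving hN
  obtain ⟨z₂, hz2S, hz2, -⟩ := tree_limit hh hpS hp
  have side : ∀ w x : M, HaarU w → w * p = p * w → w * x = x * w → star w * x = x * star w →
      p * x = x → x * p = x → w * z₂ = z₂ * w → star w * z₂ = z₂ * star w →
      ∃ z, IsHaarIn p z ∧ x * z = z * x ∧ z₂ * z = z * z₂ := by
    intro w x hw hwp hwx hwx' hpx hxp hwz hwz'
    have hwp' := hstar hw.isom hw.coisom hwp
    have hT : StarClosed ({w, star w, p} : Set M) := by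
      intro s hs
      simp only [Set.mem_insert_iff, Set.mem_singleton_iff] at hs ⊢
      rcases hs with rfl | rfl | rfl
      · simp
      · simp
      · simp [hp.star]
    have hmem : ∀ s, w * s = s * w → star w * s = s * star w → p * s = s * p →
        s ∈ Cen ({w, star w, p} : Set M) := by
      intro s h1 h2 h3 t ht
      simp only [Set.mem_insert_iff, Set.mem_singleton_iff] at ht
      rcases ht with rfl | rfl | rfl
      · exact h1
      · exact h2
      · exact h3
    have hN1 : NoMin (Cen ({w, star w, p} : Set M)) :=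
      noMin_of_haar (Cen.starClosed hT) hw (hmem w rfl (by rw [hw.isom, hw.coisom]) hwp.symm)
        (fun s hs => (hs w (by simp)).symm)
    have hpC : Co (Cen ({w, star w, p} : Set M)) p := fun s hs => (hs p (by simp)).symm
    obtain ⟨h, hh⟩ := exists_halving hN1
    obtain ⟨z, hzS, hz, -⟩ := tree_limit hh hpC hp
    refine ⟨z, hz, ?_, ?_⟩
    · exact hzS x (hmem x hwx hwx' (by rw [hpx, hxp]))
    · exact hzS z₂ (hmem z₂ hwz hwz' (by rw [hz2.mul_left hp, hz2.mul_right hp]))
  obtain ⟨z₁, hz1, hz1a, hz1z⟩ := side w₁ a h₁ hp1 ha ha' hap.1 hap.2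
    (hz2S _ (by simp)) (hz2S _ (by simp))
  obtain ⟨z₃, hz3, hz3b, hz3z⟩ := side w₃ b h₃ hp3 hb hb' hbp.1 hbp.2
    (hz2S _ (by simp)) (hz2S _ (by simp))
  exact ⟨z₁, z₂, z₃, hz1, hz2, hz3, hz1a, hz1z.symm, hz3z, hz3b.symm⟩

end

end SCO
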