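import Pool.Agent.Work.MP_52dd0f_an.Func
import Pool.Agent.Work.MP_52dd0f_an.Defs

/-!
# Approximate chains of commuting Haar unitaries
-/

set_option autoImplicit false

namespace SCO

open Filter Topology
open scoped ComplexOrder ComplexConjugate

universe u v

section Conn

variable {M : Type u} [CStarAlgebra M] [TrC M]

/-- an approximate Haar unitary -/
structure ApproxHaar (ε : ℝ) (l : ℕ) (w : M) : Prop where
  norm_le : ‖w‖ ≤ 1
  isom : n2 (star w * w - 1) < ε
  coisom : n2 (w * star w - 1) < ε
  haar : ∀ j, 1 ≤ j → j ≤ l → ‖tr (w ^ j)‖ < ε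

/-- `u` and `v` are connected through `n` intermediate approximate Haar unitaries, to any accuracy -/
def Conn (n : ℕ) (u v : M) : Prop :=
  ∀ ε > 0, ∀ l : ℕ, ∃ w : ℕ → M, w 0 = u ∧ w (n + 1) = v ∧ (∀ i, ApproxHaar ε l (w i)) ∧
    ∀ i ≤ n, n2 (w i * w (i + 1) - w (i + 1) * w i) < ε

/-- Haar unitaries as elements -/
structure HaarU (u : M) : Prop where
  isom : star u * u = 1
  coisom : u * star u = 1
  haar : ∀ j : ℕ, 1 ≤ j → tr (u ^ j) = 0

theorem norm_le_one_of_star_mul {u : M} (h : star u * u = 1) : ‖u‖ ≤ 1 := by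
  have h1 : ‖u‖ * ‖u‖ = 1 := by
    rw [← CStarRing.norm_star_mul_self, h]; exact norm_one
  nlinarith [norm_nonneg u]

theorem HaarU.norm_le {u : M} (h : HaarU u) : ‖u‖ ≤ 1 := norm_le_one_of_star_mul h.isom

theorem HaarU.approx {u : M} (h : HaarU u) {ε : ℝ} (hε : 0 < ε) (l : ℕ) : ApproxHaar ε l u :=
  ⟨h.norm_le, by rw [h.isom, sub_self, n2_zero]; exact hε,
    by rw [h.coisom, sub_self, n2_zero]; exact hε,
    fun j hj _ => by rw [h.haar j hj, norm_zero]; exact hε⟩

theorem ApproxHaar.mono {ε ε' : ℝ} {l l' : ℕ} {w : M} (h : ApproxHaar ε l w) (hε : ε ≤ ε')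
    (hl : l' ≤ l) : ApproxHaar ε' l' w :=
  ⟨h.norm_le, h.isom.trans_le hε, h.coisom.trans_le hε,
    fun j h1 h2 => (h.haar j h1 (h2.trans hl)).trans_le hε⟩

/-- build a chain from commuting data -/
theorem Conn.of_commute {u v : M} (hu : HaarU u) (hv : HaarU v) (h : u * v = v * u) :
    Conn 0 u v := by
  intro ε hε l
  refine ⟨fun i => if i = 0 then u else v, by simp, by simp, fun i => ?_, fun i hi => ?_⟩
  · by_cases h0 : i = 0
    · simp only [h0, if_true]; exact hu.approx hε l
    · simp only [h0, if_false]; exact hv.approx hε l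
  · have : i = 0 := by omega
    subst this
    simp [h, hε]

theorem Conn.refl {u : M} (hu : HaarU u) : Conn 0 u u := Conn.of_commute hu hu rfl

theorem Conn.symm {n : ℕ} {u v : M} (h : Conn n u v) : Conn n v u := by
  intro ε hε l
  obtain ⟨w, h0, h1, h2, h3⟩ := h ε hε l
  refine ⟨fun i => w (n + 1 - i), by simpa using h1, by simpa using h0, fun i => h2 _,
    fun i hi => ?_⟩
  have e : n + 1 - i = (n - i) + 1 := by omega
  have e2 : n + 1 - (i + 1) = n - i := by omega
  simp only [e, e2]
  have := h3 (n - i) (by omega)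
  rwa [n2_sub_comm]

theorem Conn.trans {n m : ℕ} {u v x : M} (h : Conn n u v) (h' : Conn m v x) :
    Conn (n + m + 1) u x := by
  intro ε hε l
  obtain ⟨w, h0, h1, h2, h3⟩ := h ε hε l
  obtain ⟨w', h0', h1', h2', h3'⟩ := h' ε hε l
  refine ⟨fun i => if i ≤ n + 1 then w i else w' (i - (n + 1)), by simpa using h0, ?_,
    fun i => ?_, fun i hi => ?_⟩
  · beta_reduce
    rw [if_neg (by omega), show n + m + 1 + 1 - (n + 1) = m + 1 by omega]; exact h1'
  · beta_reduce
    split_ifs
    · exact h2 _
    · exact h2' _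
  · beta_reduce
    rcases lt_trichotomy i (n + 1) with hlt | heq | hgt
    · rw [if_pos (by omega), if_pos (by omega)]; exact h3 i (by omega)
    · subst heq
      rw [if_pos le_rfl, if_neg (by omega), h1, ← h0',
        show n + 1 + 1 - (n + 1) = 0 + 1 by omega]
      exact h3' 0 (by omega)
    · rw [if_neg (by omega), if_neg (by omega), show i + 1 - (n + 1) = (i - (n + 1)) + 1 by omega]
      exact h3' _ (by omega)

theorem Conn.succ {n : ℕ} {u v : M} (h : Conn n u v) : Conn (n + 1) u v := by
  intro ε hε l
  obtain ⟨w, h0, h1, h2, h3⟩ := h ε hε l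
  refine ⟨fun i => w (min i (n + 1)), by simpa using h0, ?_, fun i => h2 _, fun i hi => ?_⟩
  · simp only
    rw [min_eq_right (by omega)]; exact h1
  · rcases Nat.lt_or_ge i (n + 1) with hlt | hge
    · simp only
      rw [min_eq_left (by omega), min_eq_left (by omega)]
      exact h3 i (by omega)
    · simp only
      rw [min_eq_right (by omega), min_eq_right (by omega), sub_self, n2_zero]
      exact hε

theorem Conn.mono {n m : ℕ} {u v : M} (h : Conn n u v) (hnm : n ≤ m) : Conn m u v := by
  induction m, hnm using Nat.le_induction with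
  | base => exact h
  | succ m _ ih => exact ih.succ

omit [TrC M] in
/-- powers of a conjugate -/
theorem conj_pow {g w : M} (hg : star g * g = 1) (hg' : g * star g = 1) (j : ℕ) :
    (g * w * star g) ^ j = g * w ^ j * star g := by
  induction j with
  | zero => simp [hg']
  | succ j ih =>
    rw [pow_succ, ih, pow_succ]
    calc g * w ^ j * star g * (g * w * star g) = g * w ^ j * (star g * g) * w * star g := by
          noncomm_ring
      _ = _ := by rw [hg]; noncomm_ring

theorem tr_conj {g w : M} (hg : star g * g = 1) : tr (g * w * star g) = tr w := by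
  rw [tr_comm, ← mul_assoc, hg, one_mul]

theorem norm_conj_le {g w : M} (hg : star g * g = 1) (hw : ‖w‖ ≤ 1) : ‖g * w * star g‖ ≤ 1 := by
  have h1 := norm_le_one_of_star_mul hg
  calc ‖g * w * star g‖ ≤ ‖g‖ * ‖w‖ * ‖star g‖ :=
        (norm_mul_le _ _).trans (mul_le_mul_of_nonneg_right (norm_mul_le _ _) (norm_nonneg _))
    _ ≤ 1 * 1 * 1 := by rw [norm_star]; gcongr
    _ = 1 := by norm_num

theorem n2_conj {g : M} (hg : star g * g = 1) (w : M) : n2 (g * w * star g) = n2 w := by
  rw [n2_mul_coisometry (by rwa [star_star] : star g * star (star g) = 1) , n2_isometry_mul hg]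

theorem ApproxHaar.conj {ε : ℝ} {l : ℕ} {g w : M} (hg : star g * g = 1) (hg' : g * star g = 1)
    (h : ApproxHaar ε l w) : ApproxHaar ε l (g * w * star g) := by
  refine ⟨norm_conj_le hg h.norm_le, ?_, ?_, fun j h1 h2 => ?_⟩
  · have : star (g * w * star g) * (g * w * star g) - 1 = g * (star w * w - 1) * star g := by
      rw [star_mul, star_mul, star_star]
      calc g * (star w * star g) * (g * w * star g) - 1 =
          g * star w * (star g * g) * w * star g - 1 := by noncomm_ring
        _ = g * (star w * w) * star g - g * star g := by rw [hg, hg']; noncomm_ring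
        _ = _ := by noncomm_ring
    rw [this, n2_conj hg]; exact h.isom
  · have : (g * w * star g) * star (g * w * star g) - 1 = g * (w * star w - 1) * star g := by
      rw [star_mul, star_mul, star_star]
      calc (g * w * star g) * (g * (star w * star g)) - 1 =
          g * w * (star g * g) * star w * star g - 1 := by noncomm_ring
        _ = g * (w * star w) * star g - g * star g := by rw [hg, hg']; noncomm_ring
        _ = _ := by noncomm_ring
    rw [this, n2_conj hg]; exact h.coisom
  · rw [conj_pow hg hg', tr_conj hg]; exact h.haar j h1 h2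

theorem Conn.conj {n : ℕ} {u v g : M} (hg : star g * g = 1) (hg' : g * star g = 1)
    (h : Conn n u v) : Conn n (g * u * star g) (g * v * star g) := by
  intro ε hε l
  obtain ⟨w, h0, h1, h2, h3⟩ := h ε hε l
  refine ⟨fun i => g * w i * star g, by simp [h0], by simp [h1], fun i => (h2 i).conj hg hg',
    fun i hi => ?_⟩
  have : g * w i * star g * (g * w (i + 1) * star g) - g * w (i + 1) * star g * (g * w i * star g)
      = g * (w i * w (i + 1) - w (i + 1) * w i) * star g := by
    calc _ = g * w i * (star g * g) * w (i + 1) * star g -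
          g * w (i + 1) * (star g * g) * w i * star g := by noncomm_ring
      _ = _ := by rw [hg]; noncomm_ring
  simp only [this]
  rw [n2_conj hg]; exact h3 i hi

theorem HaarU.conj {u g : M} (hg : star g * g = 1) (hg' : g * star g = 1)
    (h : HaarU u) : HaarU (g * u * star g) := by
  refine ⟨?_, ?_, fun j hj => ?_⟩
  · rw [star_mul, star_mul, star_star]
    calc g * (star u * star g) * (g * u * star g) = g * star u * (star g * g) * u * star g := by
          noncomm_ring
      _ = g * (star u * u) * star g := by rw [hg]; noncomm_ring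
      _ = 1 := by rw [h.isom, mul_one, hg']
  · rw [star_mul, star_mul, star_star]
    calc (g * u * star g) * (g * (star u * star g)) = g * u * (star g * g) * star u * star g := by
          noncomm_ring
      _ = g * (u * star u) * star g := by rw [hg]; noncomm_ring
      _ = 1 := by rw [h.coisom, mul_one, hg']
  · rw [conj_pow hg hg', tr_conj hg]; exact h.haar j hj

/-- endpoint replacement -/
theorem Conn.of_close {n : ℕ} {u v : M} (hu : HaarU u) (hv : HaarU v)
    (h : ∀ ε > 0, ∃ u' v' : M, n2 (u - u') < ε ∧ n2 (v - v') < ε ∧ Conn n u' v') :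
    Conn n u v := by
  intro ε hε l
  obtain ⟨u', v', hu', hv', hc⟩ := h (ε / 5) (by positivity)
  obtain ⟨w, h0, h1, h2, h3⟩ := hc (ε / 5) (by positivity) l
  refine ⟨fun i => if i = 0 then u else if i = n + 1 then v else w i, by simp, by simp,
    fun i => ?_, fun i hi => ?_⟩
  · beta_reduce
    split_ifs
    · exact hu.approx hε l
    · exact hv.approx hε l
    · exact (h2 i).mono (by linarith) le_rfl
  · -- commutators
    have key : ∀ a b a' b' : M, ‖a‖ ≤ 1 → ‖b'‖ ≤ 1 → n2 (a - a') < ε / 5 → n2 (b - b') < ε / 5 →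
        n2 (a' * b' - b' * a') < ε / 5 → n2 (a * b - b * a) < ε := by
      intro a b a' b' ha hb h1 h2 h3
      have e : a * b - b * a = (a * (b - b') - (b - b') * a) + ((a - a') * b' - b' * (a - a')) +
          (a' * b' - b' * a') := by noncomm_ring
      rw [e]
      have i1 : n2 (a * (b - b')) ≤ n2 (b - b') :=
        (n2_mul_le_left _ _).trans (mul_le_of_le_one_left (n2_nonneg _) ha)
      have i2 : n2 ((b - b') * a) ≤ n2 (b - b') :=
        (n2_mul_le_right _ _).trans (mul_le_of_le_one_right (n2_nonneg _) ha)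
      have i3 : n2 ((a - a') * b') ≤ n2 (a - a') :=
        (n2_mul_le_right _ _).trans (mul_le_of_le_one_right (n2_nonneg _) hb)
      have i4 : n2 (b' * (a - a')) ≤ n2 (a - a') :=
        (n2_mul_le_left _ _).trans (mul_le_of_le_one_left (n2_nonneg _) hb)
      have j1 := n2_add_le ((a * (b - b') - (b - b') * a) + ((a - a') * b' - b' * (a - a')))
          (a' * b' - b' * a')
      have j2 := n2_add_le (a * (b - b') - (b - b') * a) ((a - a') * b' - b' * (a - a'))
      have j3 := n2_sub_le (a * (b - b')) ((b - b') * a)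
      have j4 := n2_sub_le ((a - a') * b') (b' * (a - a'))
      linarith
    have hnw : ∀ i, ‖w i‖ ≤ 1 := fun i => (h2 i).norm_le
    have hcl : ∀ i, n2 ((if i = 0 then u else if i = n + 1 then v else w i) - w i) < ε / 5 := by
      intro i
      split_ifs with ha hb
      · rw [ha, h0]; exact hu'
      · rw [hb, h1]; exact hv'
      · rw [sub_self, n2_zero]; positivity
    have hn : ∀ i, ‖(if i = 0 then u else if i = n + 1 then v else w i)‖ ≤ 1 := by
      intro i
      split_ifs with ha hb
      · exact hu.norm_le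
      · exact hv.norm_le
      · exact hnw i
    exact key _ _ _ _ (hn i) (hnw (i + 1)) (hcl i) (hcl (i + 1)) (h3 i hi)

/-- closedness -/
theorem Conn.of_T2 {ι : Type*} {l : Filter ι} [l.NeBot] {n : ℕ} {u v : M} {x y : ι → M}
    (hu : HaarU u) (hv : HaarU v) (hx : T2 l x u) (hy : T2 l y v)
    (h : ∀ k, Conn n (x k) (y k)) : Conn n u v := by
  refine Conn.of_close hu hv fun ε hε => ?_
  have h1 : ∀ᶠ k in l, n2 (x k - u) < ε := (tendsto_order.1 hx).2 ε hε
  have h2 : ∀ᶠ k in l, n2 (y k - v) < ε := (tendsto_order.1 hy).2 ε hε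
  obtain ⟨k, hk1, hk2⟩ := (h1.and h2).exists
  exact ⟨x k, y k, by rwa [n2_sub_comm], by rwa [n2_sub_comm], h k⟩

end Conn

end SCO
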