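import Pool.Agent.Work.MP_52dd0f_an_helper59.Conn

/-!
# Chains in the tracial ultrapower are the same as approximate chains
-/

set_option autoImplicit false

namespace SCO

open Filter Topology
open scoped ComplexOrder ComplexConjugate

universe u v

section Cut

variable {M : Type u} [CStarAlgebra M] [TrC M]

noncomputable def cutf (t : ℝ) : ℝ := (Real.sqrt (max t 1))⁻¹

theorem cutf_cont : Continuous cutf := by
  unfold cutf
  refine Continuous.inv₀ (by fun_prop) fun t => ?_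
  exact (Real.sqrt_pos.2 (lt_of_lt_of_le zero_lt_one (le_max_right _ _))).ne'

theorem cutf_of_le {t : ℝ} (h : t ≤ 1) : cutf t = 1 := by
  unfold cutf; rw [max_eq_right h]; simp

theorem cutf_of_ge {t : ℝ} (h : 1 ≤ t) : cutf t = (Real.sqrt t)⁻¹ := by
  unfold cutf; rw [max_eq_left h]

/-- a contraction close to `x`, if `x` is nearly isometric -/
noncomputable def cut (x : M) : M := x * cfc cutf (star x * x)

theorem norm_cut_le (x : M) : ‖cut x‖ ≤ 1 := by
  have h1 : ‖cut x‖ * ‖cut x‖ ≤ 1 := by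
    rw [← CStarRing.norm_star_mul_self, cut,
      star_mul_cfc_mul x cutf_cont.continuousOn cutf_cont.continuousOn]
    refine norm_cfc_le zero_le_one fun t ht => ?_
    have ht0 := spectrum_sq_nonneg x ht
    rcases le_total t 1 with h | h
    · rw [cutf_of_le h, one_mul, mul_one, Real.norm_of_nonneg ht0]; exact h
    · rw [cutf_of_ge h]
      have h2 : 0 < Real.sqrt t := Real.sqrt_pos.2 (by linarith)
      have h3 : (Real.sqrt t)⁻¹ * t * (Real.sqrt t)⁻¹ = 1 := by
        have := Real.mul_self_sqrt ht0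
        field_simp
        nlinarith
      rw [h3, norm_one]
  by_contra h
  push Not at h
  nlinarith

theorem n2_sub_cut (x : M) : n2 (x - cut x) ≤ n2 (star x * x - 1) := by
  have hsa := isSelfAdjoint_sq x
  have hc := cutf_cont
  have e1 : x - cut x = x * cfc (fun t => 1 - cutf t) (star x * x) := by
    rw [cfc_sub (fun _ => (1 : ℝ)) cutf _ (by fun_prop) hc.continuousOn,
      cfc_const_one ℝ (star x * x), mul_sub, mul_one]; rfl
  have e2 : star x * x - 1 = cfc (fun t : ℝ => t - 1) (star x * x) := by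
    rw [cfc_sub (fun t : ℝ => t) (fun _ => (1 : ℝ)) _ (by fun_prop) (by fun_prop),
      cfc_const_one ℝ (star x * x), cfc_id' ℝ (star x * x)]
  have h : n2 (x - cut x) ^ 2 ≤ n2 (star x * x - 1) ^ 2 := by
    rw [e1, n2_mul_cfc_sq x (by fun_prop)]
    conv_rhs => rw [e2]
    rw [n2_cfc_sq (by fun_prop)]
    refine tr_cfc_mono (by fun_prop) (by fun_prop) fun t ht => ?_
    have ht0 := spectrum_sq_nonneg x ht
    rcases le_total t 1 with h | h
    · rw [cutf_of_le h]; simp; nlinarith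
    · rw [cutf_of_ge h]
      set s := Real.sqrt t with hs
      have h1 : 1 ≤ s := by rw [hs]; exact Real.one_le_sqrt.2 h
      have h2 : t = s * s := (Real.mul_self_sqrt ht0).symm
      have h3 : (1 - s⁻¹) * t * (1 - s⁻¹) = (s - 1) ^ 2 := by
        rw [h2]; field_simp
      have h4 : (t - 1) * (t - 1) = (s - 1) ^ 2 * (s + 1) ^ 2 := by rw [h2]; ring
      rw [h3, h4]
      nlinarith [sq_nonneg (s - 1), mul_nonneg (sq_nonneg (s - 1)) (show (0 : ℝ) ≤ (s + 1) ^ 2 - 1 by nlinarith)]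
  exact abs_le_of_sq_le_sq' h (n2_nonneg _) |>.2

omit [TrC M] in
theorem cut_of_isometry {x : M} (h : star x * x = 1) : cut x = x := by
  rw [cut, h, cfc_apply_one, cutf_of_le le_rfl, map_one, mul_one]

end Cut

section Seq

variable {M : Type u} [CStarAlgebra M] [TrC M]

/-- bounded sequences -/
def Bdd {ι : Type*} (x : ι → M) : Prop := ∃ C : ℝ, ∀ k, ‖x k‖ ≤ C

omit [TrC M] in
theorem Bdd.mul {ι : Type*} {x y : ι → M} (hx : Bdd x) (hy : Bdd y) :
    Bdd (fun k => x k * y k) := by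
  obtain ⟨C, hC⟩ := hx
  obtain ⟨D, hD⟩ := hy
  refine ⟨|C| * |D|, fun k => (norm_mul_le _ _).trans ?_⟩
  exact mul_le_mul ((hC k).trans (le_abs_self _)) ((hD k).trans (le_abs_self _)) (norm_nonneg _)
    (abs_nonneg _)

omit [TrC M] in
theorem Bdd.star {ι : Type*} {x : ι → M} (hx : Bdd x) : Bdd (fun k => star (x k)) := by
  obtain ⟨C, hC⟩ := hx
  exact ⟨C, fun k => by rw [norm_star]; exact hC k⟩

omit [TrC M] in
theorem Bdd.const {ι : Type*} (a : M) : Bdd (fun _ : ι => a) := ⟨‖a‖, fun _ => le_rfl⟩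

omit [TrC M] in
theorem Bdd.pow {ι : Type*} {x : ι → M} (hx : Bdd x) (m : ℕ) : Bdd (fun k => x k ^ m) := by
  induction m with
  | zero => simpa using Bdd.const (1 : M)
  | succ m ih => simpa only [pow_succ] using ih.mul hx

omit [TrC M] in
theorem Bdd.add {ι : Type*} {x y : ι → M} (hx : Bdd x) (hy : Bdd y) :
    Bdd (fun k => x k + y k) := by
  obtain ⟨C, hC⟩ := hx
  obtain ⟨D, hD⟩ := hy
  exact ⟨C + D, fun k => (norm_add_le _ _).trans (add_le_add (hC k) (hD k))⟩

omit [TrC M] in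
theorem Bdd.sub {ι : Type*} {x y : ι → M} (hx : Bdd x) (hy : Bdd y) :
    Bdd (fun k => x k - y k) := by
  obtain ⟨C, hC⟩ := hx
  obtain ⟨D, hD⟩ := hy
  exact ⟨C + D, fun k => (norm_sub_le _ _).trans (add_le_add (hC k) (hD k))⟩

/-- 2-norm equivalence of sequences along a filter -/
def Eq2 {ι : Type*} (l : Filter ι) (x y : ι → M) : Prop :=
  Tendsto (fun k => n2 (x k - y k)) l (𝓝 0)

variable {ι : Type*} {l : Filter ι} {x y z x' y' : ι → M}

theorem Eq2.refl (x : ι → M) : Eq2 l x x := by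
  unfold Eq2; simp only [sub_self, n2_zero]; exact tendsto_const_nhds

theorem Eq2.symm (h : Eq2 l x y) : Eq2 l y x := by
  unfold Eq2 at h ⊢; simpa only [n2_sub_comm] using h

theorem Eq2.trans (h : Eq2 l x y) (h' : Eq2 l y z) : Eq2 l x z := by
  have := Tendsto.add h h'
  rw [add_zero] at this
  exact squeeze_zero (fun _ => n2_nonneg _) (fun k => n2_triangle _ _ _) this

theorem Eq2.star (h : Eq2 l x y) : Eq2 l (fun k => star (x k)) (fun k => star (y k)) := by
  unfold Eq2; simp only [← star_sub, n2_star]; exact h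

theorem Eq2.add (h : Eq2 l x y) (h' : Eq2 l x' y') :
    Eq2 l (fun k => x k + x' k) (fun k => y k + y' k) := by
  have := Tendsto.add h h'
  rw [add_zero] at this
  refine squeeze_zero (fun _ => n2_nonneg _) (fun k => ?_) this
  have e : x k + x' k - (y k + y' k) = (x k - y k) + (x' k - y' k) := by abel
  rw [e]; exact n2_add_le _ _

theorem Eq2.sub (h : Eq2 l x y) (h' : Eq2 l x' y') :
    Eq2 l (fun k => x k - x' k) (fun k => y k - y' k) := by
  have := Tendsto.add h h'
  rw [add_zero] at this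
  refine squeeze_zero (fun _ => n2_nonneg _) (fun k => ?_) this
  have e : x k - x' k - (y k - y' k) = (x k - y k) - (x' k - y' k) := by abel
  rw [e]; exact n2_sub_le _ _

theorem Eq2.mul (hx : Bdd x) (hy' : Bdd y') (h : Eq2 l x y) (h' : Eq2 l x' y') :
    Eq2 l (fun k => x k * x' k) (fun k => y k * y' k) := by
  obtain ⟨C, hC⟩ := hx
  obtain ⟨D, hD⟩ := hy'
  have := (Tendsto.const_mul C h').add (Tendsto.mul_const D h)
  rw [mul_zero, zero_mul, add_zero] at this
  refine squeeze_zero (fun _ => n2_nonneg _) (fun k => ?_) this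
  have e : x k * x' k - y k * y' k = x k * (x' k - y' k) + (x k - y k) * y' k := by noncomm_ring
  rw [e]
  refine (n2_add_le _ _).trans (add_le_add ?_ ?_)
  · exact (n2_mul_le_left _ _).trans (mul_le_mul_of_nonneg_right (hC k) (n2_nonneg _))
  · exact (n2_mul_le_right _ _).trans (mul_le_mul_of_nonneg_left (hD k) (n2_nonneg _))

theorem Eq2.pow (hx : Bdd x) (hy : Bdd y) (h : Eq2 l x y) (m : ℕ) :
    Eq2 l (fun k => x k ^ m) (fun k => y k ^ m) := by
  induction m with
  | zero => simpa using Eq2.refl (fun _ => (1 : M))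
  | succ m ih => simpa only [pow_succ] using Eq2.mul (hx.pow m) hy ih h

theorem Eq2.congr (h : Eq2 l x y) (h1 : ∀ k, x k = x' k) (h2 : ∀ k, y k = y' k) :
    Eq2 l x' y' := by
  have e1 : x = x' := funext h1
  have e2 : y = y' := funext h2
  rwa [← e1, ← e2]

theorem Eq2.tr_sub (h : Eq2 l x y) : Tendsto (fun k => tr (x k) - tr (y k)) l (𝓝 0) := by
  rw [tendsto_zero_iff_norm_tendsto_zero]
  refine squeeze_zero (fun _ => norm_nonneg _) (fun k => ?_) h
  rw [← map_sub]; exact norm_tr_le _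

theorem Eq2.tendsto_tr (h : Eq2 l x y) {c : ℂ} (hx : Tendsto (fun k => tr (x k)) l (𝓝 c)) :
    Tendsto (fun k => tr (y k)) l (𝓝 c) := by
  have := hx.sub h.tr_sub
  simpa using this

end Seq

section Haar

variable {M : Type u} [CStarAlgebra M] [TrC M]

theorem nrm2_tr (x : M) : nrm2 (tr : M →ₗ[ℂ] ℂ) x = n2 x := rfl

theorem IsHaarU.congr {𝒰 : Ultrafilter ℕ} {x y : ℕ → M} (h : IsHaarU 𝒰 tr x) (hy : Bdd y)
    (he : Eq2 (𝒰 : Filter ℕ) x y) : IsHaarU 𝒰 tr y := by
  have hx : Bdd x := h.bounded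
  refine ⟨hy, ?_, ?_, fun m hm => ⟨?_, ?_⟩⟩
  · exact ((Eq2.mul hx.star hy he.star he).symm.trans h.star_mul)
  · exact ((Eq2.mul hx hy.star he he.star).symm.trans h.mul_star)
  · exact (Eq2.pow hx hy he m).tendsto_tr (h.haar m hm).1
  · exact (Eq2.pow hx.star hy.star he.star m).tendsto_tr (h.haar m hm).2

theorem IsHaarU.cut {𝒰 : Ultrafilter ℕ} {x : ℕ → M} (h : IsHaarU 𝒰 tr x) :
    Eq2 (𝒰 : Filter ℕ) x (fun k => SCO.cut (x k)) ∧ IsHaarU 𝒰 tr (fun k => SCO.cut (x k)) := by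
  have h1 : Eq2 (𝒰 : Filter ℕ) x (fun k => SCO.cut (x k)) :=
    squeeze_zero (fun _ => n2_nonneg _) (fun k => n2_sub_cut (x k)) h.star_mul
  exact ⟨h1, h.congr ⟨1, fun k => norm_cut_le _⟩ h1⟩

theorem isHaarU_of_haarU {𝒰 : Ultrafilter ℕ} {u : M} (h : HaarU u) :
    IsHaarU 𝒰 tr (fun _ => u) := by
  refine ⟨Bdd.const u, ?_, ?_, fun m hm => ⟨?_, ?_⟩⟩
  · have : (fun _ : ℕ => star u * u) = fun _ => (1 : M) := by rw [h.isom]
    rw [this]; exact Eq2.refl _
  · have : (fun _ : ℕ => u * star u) = fun _ => (1 : M) := by rw [h.coisom]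
    rw [this]; exact Eq2.refl _
  · rw [h.haar m (Nat.one_le_iff_ne_zero.2 hm)]; exact tendsto_const_nhds
  · have : tr (star u ^ m) = 0 := by
      rw [← star_pow, tr_star, h.haar m (Nat.one_le_iff_ne_zero.2 hm), map_zero]
    rw [this]; exact tendsto_const_nhds

/-- the elements of `Haar tr` -/
theorem Haar.haarU (u : Haar (tr : M →ₗ[ℂ] ℂ)) : HaarU (u.1 : M) := by
  refine ⟨Unitary.coe_star_mul_self u.1, Unitary.coe_mul_star_self u.1, fun j hj => ?_⟩
  have := u.2 j (by omega)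
  rwa [zpow_natCast, SubmonoidClass.coe_pow] at this

/-- Haar unitaries in the sense of `HaarU` are elements of `Haar tr` -/
def HaarU.toHaar {u : M} (h : HaarU u) : Haar (tr : M →ₗ[ℂ] ℂ) :=
  ⟨⟨u, Unitary.mem_iff.2 ⟨h.isom, h.coisom⟩⟩, by
    intro k hk
    rcases Int.eq_nat_or_neg k with ⟨j, rfl | rfl⟩
    · rw [zpow_natCast, SubmonoidClass.coe_pow]
      exact h.haar j (by omega)
    · rw [zpow_neg, zpow_natCast, ← Unitary.star_eq_inv, Unitary.coe_star,
        SubmonoidClass.coe_pow, tr_star]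
      have := h.haar j (by omega)
      simp only [this, map_zero]⟩

@[simp] theorem HaarU.coe_toHaar {u : M} (h : HaarU u) : ((h.toHaar).1 : M) = u := rfl

theorem Haar.ext' {u v : Haar (tr : M →ₗ[ℂ] ℂ)} (h : (u.1 : M) = v.1) : u = v :=
  Subtype.ext (Subtype.ext h)

theorem exists_chain {X : Type*} {r : X → X → Prop} {a b : X} (h : Relation.ReflTransGen r a b) :
    ∃ (n : ℕ) (x : ℕ → X), x 0 = a ∧ x n = b ∧ ∀ i < n, r (x i) (x (i + 1)) := by
  induction h with
  | refl => exact ⟨0, fun _ => a, rfl, rfl, fun i hi => absurd hi (by omega)⟩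
  | @tail b c _ hbc ih =>
    obtain ⟨n, x, h0, h1, h2⟩ := ih
    refine ⟨n + 1, fun i => if i ≤ n then x i else c, by simpa using h0, by simp, fun i hi => ?_⟩
    beta_reduce
    rcases Nat.lt_or_ge i n with hlt | hge
    · rw [if_pos hlt.le, if_pos (by omega)]; exact h2 i hlt
    · have : i = n := by omega
      subst this
      rw [if_pos le_rfl, if_neg (by omega), h1]; exact hbc

theorem chain_reflTransGen {X : Type*} {r : X → X → Prop} (n : ℕ) (x : ℕ → X)
    (h : ∀ i < n, r (x i) (x (i + 1))) : Relation.ReflTransGen r (x 0) (x n) := by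
  induction n with
  | zero => exact Relation.ReflTransGen.refl
  | succ n ih =>
    exact (ih fun i hi => h i (by omega)).tail (h n (by omega))

/-- approximate chains give chains in the ultrapower -/
theorem Conn.seqComm {n : ℕ} {u v : M} (h : Conn n u v) (hu : HaarU u) (hv : HaarU v)
    {𝒰 : Ultrafilter ℕ} (h𝒰 : (𝒰 : Filter ℕ) ≤ atTop) :
    SeqComm 𝒰 tr hu.toHaar hv.toHaar := by
  have hε : ∀ k : ℕ, (0 : ℝ) < 1 / ((k : ℝ) + 1) := fun k => by positivity
  choose w h0 h1 h2 h3 using fun k : ℕ => h (1 / ((k : ℝ) + 1)) (hε k) k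
  have ht : Tendsto (fun k : ℕ => 1 / ((k : ℝ) + 1)) (𝒰 : Filter ℕ) (𝓝 0) :=
    tendsto_one_div_add_atTop_nhds_zero_nat.mono_left h𝒰
  have hH : ∀ i, IsHaarU 𝒰 (tr : M →ₗ[ℂ] ℂ) (fun k => w k i) := by
    intro i
    have key : ∀ m : ℕ, m ≠ 0 → Tendsto (fun k => tr (w k i ^ m)) (𝒰 : Filter ℕ) (𝓝 0) := by
      intro m hm
      rw [tendsto_zero_iff_norm_tendsto_zero]
      refine squeeze_zero' (Eventually.of_forall fun _ => norm_nonneg _) ?_ ht
      have : ∀ᶠ k in (𝒰 : Filter ℕ), m ≤ k := h𝒰 (eventually_ge_atTop m)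
      filter_upwards [this] with k hk
      exact ((h2 k i).haar m (Nat.one_le_iff_ne_zero.2 hm) hk).le
    refine ⟨⟨1, fun k => (h2 k i).norm_le⟩, ?_, ?_, fun m hm => ⟨key m hm, ?_⟩⟩
    · exact squeeze_zero (fun _ => n2_nonneg _) (fun k => (h2 k i).isom.le) ht
    · exact squeeze_zero (fun _ => n2_nonneg _) (fun k => (h2 k i).coisom.le) ht
    · have := (Complex.continuous_conj.tendsto _).comp (key m hm)
      rw [map_zero] at this
      refine this.congr fun k => ?_
      rw [Function.comp_apply, ← tr_star, star_pow]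
  have hS : ∀ i < n + 1, Step 𝒰 (tr : M →ₗ[ℂ] ℂ) (fun k => w k i) (fun k => w k (i + 1)) :=
    fun i hi => ⟨hH i, hH (i + 1), squeeze_zero (fun _ => n2_nonneg _)
      (fun k => (h3 k i (by omega)).le) ht⟩
  have := chain_reflTransGen (n + 1) (fun i k => w k i) hS
  simp only [h0, h1] at this
  exact this

/-- chains in the ultrapower give approximate chains -/
theorem exists_conn_of_seqComm {𝒰 : Ultrafilter ℕ} {u v : Haar (tr : M →ₗ[ℂ] ℂ)}
    (h : SeqComm 𝒰 tr u v) : ∃ n, Conn n (u.1 : M) (v.1 : M) := by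
  obtain ⟨n, x, h0, h1, h2⟩ := exists_chain h
  rcases n with _ | n
  · have : (u.1 : M) = v.1 := by
      have := h0.symm.trans h1
      exact congrFun this 0
    rw [← this]
    exact ⟨0, Conn.refl (Haar.haarU u)⟩
  refine ⟨n, fun ε hε l => ?_⟩
  let y : ℕ → ℕ → M := fun i k => SCO.cut (x (min i (n + 1)) k)
  have hx : ∀ i, IsHaarU 𝒰 (tr : M →ₗ[ℂ] ℂ) (x (min i (n + 1))) := by
    intro i
    rcases Nat.lt_or_ge i (n + 1) with hlt | hge
    · rw [min_eq_left (by omega)]; exact (h2 i hlt).1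
    · rw [min_eq_right hge]; exact (h2 n (by omega)).2.1
  have hy : ∀ i, IsHaarU 𝒰 (tr : M →ₗ[ℂ] ℂ) (y i) := fun i => (hx i).cut.2
  have hxy : ∀ i, Eq2 (𝒰 : Filter ℕ) (x (min i (n + 1))) (y i) := fun i => (hx i).cut.1
  have hb : ∀ i, Bdd (y i) := fun i => (hy i).bounded
  have hbx : ∀ i, Bdd (x (min i (n + 1))) := fun i => (hx i).bounded
  have hcomm : ∀ i ≤ n, Eq2 (𝒰 : Filter ℕ) (fun k => y i k * y (i + 1) k)
      (fun k => y (i + 1) k * y i k) := by
    intro i hi
    have h3 := (h2 i (by omega)).2.2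
    have e1 : min i (n + 1) = i := min_eq_left (by omega)
    have e2 : min (i + 1) (n + 1) = i + 1 := min_eq_left (by omega)
    have a1 := Eq2.mul (hbx i) (hb (i + 1)) (hxy i) (hxy (i + 1))
    have a2 := Eq2.mul (hbx (i + 1)) (hb i) (hxy (i + 1)) (hxy i)
    rw [e1, e2] at a1 a2
    exact (a1.symm.trans h3).trans a2
  -- the conditions hold along the ultrafilter
  have hA : ∀ i, ∀ᶠ k in (𝒰 : Filter ℕ), ApproxHaar ε l (y i k) := by
    intro i
    have c1 : ∀ᶠ k in (𝒰 : Filter ℕ), n2 (star (y i k) * y i k - 1) < ε :=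
      (tendsto_order.1 (hy i).star_mul).2 ε hε
    have c2 : ∀ᶠ k in (𝒰 : Filter ℕ), n2 (y i k * star (y i k) - 1) < ε :=
      (tendsto_order.1 (hy i).mul_star).2 ε hε
    have c3 : ∀ᶠ k in (𝒰 : Filter ℕ), ∀ j ∈ Finset.Icc 1 l, ‖tr (y i k ^ j)‖ < ε := by
      rw [Filter.eventually_all_finset]
      intro j hj
      have hj1 := (Finset.mem_Icc.1 hj).1
      have := ((hy i).haar j (by omega)).1.norm
      rw [norm_zero] at this
      exact (tendsto_order.1 this).2 ε hε
    filter_upwards [c1, c2, c3] with k k1 k2 k3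
    exact ⟨norm_cut_le _, k1, k2, fun j hj1 hj2 => k3 j (Finset.mem_Icc.2 ⟨hj1, hj2⟩)⟩
  have hA' : ∀ᶠ k in (𝒰 : Filter ℕ), ∀ i ∈ Finset.range (n + 2), ApproxHaar ε l (y i k) :=
    (Filter.eventually_all_finset _).2 fun i _ => hA i
  have hB' : ∀ᶠ k in (𝒰 : Filter ℕ), ∀ i ∈ Finset.range (n + 1),
      n2 (y i k * y (i + 1) k - y (i + 1) k * y i k) < ε :=
    (Filter.eventually_all_finset _).2 fun i hi =>
      (tendsto_order.1 (hcomm i (by have := Finset.mem_range.1 hi; omega))).2 ε hε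
  obtain ⟨k, hk1, hk2⟩ := (hA'.and hB').exists
  refine ⟨fun i => y (min i (n + 1)) k, ?_, ?_, fun i => ?_, fun i hi => ?_⟩
  · show SCO.cut (x (min (min 0 (n + 1)) (n + 1)) k) = _
    rw [Nat.zero_min, Nat.zero_min, h0]
    exact cut_of_isometry (Haar.haarU u).isom
  · show SCO.cut (x (min (min (n + 1) (n + 1)) (n + 1)) k) = _
    rw [min_self, min_self, h1]
    exact cut_of_isometry (Haar.haarU v).isom
  · exact hk1 _ (Finset.mem_range.2 (by omega))
  · have e1 : min i (n + 1) = i := min_eq_left (by omega)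
    have e2 : min (i + 1) (n + 1) = i + 1 := min_eq_left (by omega)
    beta_reduce
    rw [e1, e2]
    exact hk2 i (Finset.mem_range.2 (by omega))

/-- the equivalence -/
theorem seqComm_iff {𝒰 : Ultrafilter ℕ} (h𝒰 : (𝒰 : Filter ℕ) ≤ atTop)
    {u v : Haar (tr : M →ₗ[ℂ] ℂ)} :
    SeqComm 𝒰 tr u v ↔ ∃ n, Conn n (u.1 : M) (v.1 : M) := by
  refine ⟨exists_conn_of_seqComm, ?_⟩
  rintro ⟨n, h⟩
  have := h.seqComm (Haar.haarU u) (Haar.haarU v) h𝒰
  exact this

end Haar

end SCO
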