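import Pool.Agent.Work.MP_52dd0f_an_helper59.Lift
import Pool.Agent.Work.MP_52dd0f_an.Trace

/-!
# Chains with three intermediates pass to dyadic corners
-/

set_option linter.unusedSectionVars false
set_option autoImplicit false

namespace SCO

open Filter Topology
open scoped ComplexOrder ComplexConjugate Real

universe u v

section TreeUP

variable {M : Type u} [CStarAlgebra M] [TVN M] {S : Set M} {h : M → M}
  (𝒰 : Ultrafilter ℕ) [hF : Fact ((𝒰 : Filter ℕ) ≤ atTop)]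

theorem isHaarIn_iU {e d : M} (hd : IsHaarIn e d) : IsHaarIn (iU 𝒰 e) (iU 𝒰 d) := by
  refine ⟨by rw [← map_star, ← map_mul, hd.src], by rw [← map_star, ← map_mul, hd.rng],
    fun m hm => ?_⟩
  rw [← map_pow, tr_iU, hd.tr m hm]

/-- one step down the tree, in the ultrapower -/
theorem tree_step_UP (hh : IsHalving S h) {e d : M} (heS : Co S e) (he : IsProj e)
    (hd : IsTree h e d) {x : UP M 𝒰} (h1 : x * iU 𝒰 d = iU 𝒰 d * x)
    (h2 : x * iU 𝒰 (star d) = iU 𝒰 (star d) * x) :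
    x * iU 𝒰 (h e) = iU 𝒰 (h e) * x := by
  obtain ⟨k1, k2, k3, k4⟩ := hh e heS he
  obtain ⟨c, hc⟩ := hd.posA hh heS he
  obtain ⟨c', hc'⟩ := hd.posB hh heS he
  refine half_commute (isProj_iU 𝒰 he) (isProj_iU 𝒰 k2) (by rw [← map_mul, k3])
    (isHaarIn_iU 𝒰 (hd.haar hh heS he).2) (by rw [← map_mul, ← map_mul, hd.comm hh heS he])
    ⟨iU 𝒰 c, ?_⟩ ⟨iU 𝒰 c', ?_⟩ h1 ?_
  · rw [← map_star, ← map_mul, hc, map_smul, map_mul, map_sub, map_star]
  · rw [← map_star, ← map_mul, hc', map_smul, map_mul, map_sub, map_sub, map_star]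
  · rw [← map_star]; exact h2

theorem tree_descend_UP (hh : IsHalving S h) {e d : M} (heS : Co S e) (he : IsProj e)
    (hd : IsTree h e d) {x : UP M 𝒰} (h1 : x * iU 𝒰 d = iU 𝒰 d * x)
    (h2 : x * iU 𝒰 (star d) = iU 𝒰 (star d) * x) (m : ℕ) :
    Co S (h^[m] e) ∧ IsProj (h^[m] e) ∧ ∃ d', IsTree h (h^[m] e) d' ∧
      x * iU 𝒰 (h^[m] e) = iU 𝒰 (h^[m] e) * x ∧ x * iU 𝒰 d' = iU 𝒰 d' * x ∧
      x * iU 𝒰 (star d') = iU 𝒰 (star d') * x := by
  induction m with
  | zero =>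
    have hH := (hd.haar hh heS he).2
    refine ⟨heS, he, d, hd, ?_, h1, h2⟩
    show x * iU 𝒰 e = iU 𝒰 e * x
    rw [← hH.src, map_mul, ← mul_assoc, h2, mul_assoc, h1, mul_assoc]
  | succ m ih =>
    obtain ⟨a1, a2, d', a3, a4, a5, a6⟩ := ih
    rw [Function.iterate_succ_apply']
    obtain ⟨k1, k2, k3, k4⟩ := hh _ a1 a2
    have b1 := tree_step_UP 𝒰 hh a1 a2 a3 a5 a6
    refine ⟨k1, k2, _, a3.half hh a1 a2, b1, ?_, ?_⟩
    · rw [map_mul, map_mul, ← mul_assoc, ← mul_assoc, a5, mul_assoc (iU 𝒰 d'), a5]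
      rw [← mul_assoc, mul_assoc _ x, b1, ← mul_assoc]
    · rw [star_mul, star_mul, k2.star, map_mul, map_mul, ← mul_assoc, b1, mul_assoc, ← mul_assoc x, a6,
        mul_assoc, a6]
      simp only [mul_assoc]

end TreeUP

section Extend

variable {K M : Type u} [CStarAlgebra K] [TVN K] [FactorII K] [CStarAlgebra M] [TVN M] [FactorII M]
  {φ : K →⋆ₙₐ[ℂ] M} {e : M}

open Classical in
/-- extension of a halving function of the corner -/
noncomputable def extH (φ : K →⋆ₙₐ[ℂ] M) (S : Set K) (g : K → K) (h₀ : M → M) (x : M) : M :=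
  if hx : ∃ y, Co S y ∧ IsProj y ∧ φ y = x then φ (g hx.choose) else h₀ x

theorem extH_map (hφ : CornerMap φ e) {S : Set K} {g : K → K} {h₀ : M → M} {y : K}
    (hyS : Co S y) (hy : IsProj y) : extH φ S g h₀ (φ y) = φ (g y) := by
  have hx : ∃ y', Co S y' ∧ IsProj y' ∧ φ y' = φ y := ⟨y, hyS, hy, rfl⟩
  rw [extH, dif_pos hx]
  rw [hφ.inj hx.choose_spec.2.2]

theorem CornerMap.tau_eq (hφ : CornerMap φ e) (y : K) : tau (φ y) = tau e * tau y := by
  rw [tau, hφ.tr, Complex.re_ofReal_mul]; rfl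

theorem extH_halving (hφ : CornerMap φ e) {S : Set K} {g : K → K} {h₀ : M → M}
    (hg : IsHalving S g) (hh : IsHalving (∅ : Set M) h₀) : IsHalving (∅ : Set M) (extH φ S g h₀) := by
  intro x _ hx
  by_cases hex : ∃ y, Co S y ∧ IsProj y ∧ φ y = x
  · obtain ⟨y, hyS, hy, rfl⟩ := hex
    obtain ⟨g1, g2, g3, g4⟩ := hg y hyS hy
    rw [extH_map hφ hyS hy]
    refine ⟨co_empty _, ⟨?_, ?_⟩, ?_, ?_⟩
    · rw [← map_mul, g2.mul]
    · rw [← map_star, g2.star]
    · rw [← map_mul, g3]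
    · rw [hφ.tau_eq, hφ.tau_eq, g4]; ring
  · rw [extH, dif_neg hex]
    exact hh x (co_empty x) hx

theorem Dn_map (hφ : CornerMap φ e) {S : Set K} {g : K → K} {h₀ : M → M} (hg : IsHalving S g)
    (n : ℕ) : ∀ y : K, Co S y → IsProj y → ∀ θ w : ℝ,
    Dn (extH φ S g h₀) n (φ y) θ w = φ (Dn g n y θ w) := by
  induction n with
  | zero => intro y _ _ θ w; simp only [Dn]; rw [map_smul]
  | succ n ih =>
    intro y hyS hy θ w
    obtain ⟨g1, g2, -, -⟩ := hg y hyS hy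
    obtain ⟨r1, r2, -⟩ := hg.rest hyS hy
    simp only [Dn]
    rw [extH_map hφ hyS hy, ← map_sub, ih _ g1 g2, ih _ r1 r2, map_add]

theorem isTree_map (hφ : CornerMap φ e) {S : Set K} {g : K → K} {h₀ : M → M} (hg : IsHalving S g)
    {a : K} (ha : IsTree g 1 a) : IsTree (extH φ S g h₀) e (φ a) := by
  unfold IsTree T2 at ha ⊢
  refine squeeze_zero (fun _ => n2_nonneg _) (fun n => ?_) ha
  have h1 := Dn_map (h₀ := h₀) hφ hg n 1 Co.one IsProj.one 0 (2 * π)
  rw [hφ.one] at h1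
  show n2 (Dn (extH φ S g h₀) n e 0 (2 * π) - φ a) ≤ n2 (Dn g n 1 0 (2 * π) - a)
  rw [h1, ← map_sub]
  exact hφ.n2_le _

theorem extH_iter (hφ : CornerMap φ e) {S : Set K} {g : K → K} {h₀ : M → M}
    (hh : IsHalving (∅ : Set M) h₀) {m : ℕ} (hm : tau e = 1 / 2 ^ m) : ∀ i, i ≤ m →
    (extH φ S g h₀)^[i] 1 = h₀^[i] 1 ∧ IsProj (h₀^[i] 1) ∧ tau (h₀^[i] 1) = 1 / 2 ^ i := by
  intro i
  induction i with
  | zero => intro _; exact ⟨rfl, IsProj.one, by simp [tau_one]⟩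
  | succ i ih =>
    intro hi
    obtain ⟨a1, a2, a3⟩ := ih (by omega)
    obtain ⟨b1, b2, b3, b4⟩ := hh _ (co_empty _) a2
    rw [Function.iterate_succ_apply', Function.iterate_succ_apply', a1]
    refine ⟨?_, b2, by rw [b4, a3, pow_succ]; field_simp⟩
    rw [extH, dif_neg]
    rintro ⟨y, -, hy, hyx⟩
    have h1 := hφ.tau_eq y
    rw [hyx, a3, hm] at h1
    have h2 := hy.tau_le_one
    have h3 : (1 : ℝ) / 2 ^ m < 1 / 2 ^ i := by
      apply one_div_lt_one_div_of_lt (by positivity)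
      exact pow_lt_pow_right₀ (by norm_num) (by omega)
    have h4 : (1 : ℝ) / 2 ^ m * tau y ≤ 1 / 2 ^ m := by
      have : (0 : ℝ) < 1 / 2 ^ m := by positivity
      nlinarith
    linarith

omit [FactorII K] [FactorII M] in
theorem comm_star_of_unitary {x y : M} (h1 : star x * x = 1) (h2 : x * star x = 1)
    (h : x * y = y * x) : star x * y = y * star x := by
  calc star x * y = star x * y * (x * star x) := by rw [h2, mul_one]
    _ = star x * (y * x) * star x := by noncomm_ring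
    _ = star x * (x * y) * star x := by rw [h]
    _ = (star x * x) * y * star x := by noncomm_ring
    _ = y * star x := by rw [h1, one_mul]

/-- a Haar unitary of a dyadic corner is linked to one that is generated, together with the unit of
the corner, by a Haar unitary of the whole algebra -/
theorem exists_generator (hφ : CornerMap φ e) {h₀ : M → M} (hh : IsHalving (∅ : Set M) h₀) {m : ℕ}
    (hm : tau e = 1 / 2 ^ m) (hem : e = h₀^[m] 1) {u : K} (hu : HaarU u) :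
    ∃ a : K, HaarU a ∧ u * a = a * u ∧ ∃ U : M, HaarU U ∧
      ∀ (𝒰 : Ultrafilter ℕ) [Fact ((𝒰 : Filter ℕ) ≤ atTop)] (x : UP M 𝒰),
        iU 𝒰 U * x = x * iU 𝒰 U →
        x * iU 𝒰 e = iU 𝒰 e * x ∧ x * iU 𝒰 (φ a) = iU 𝒰 (φ a) * x ∧
        x * star (iU 𝒰 (φ a)) = star (iU 𝒰 (φ a)) * x := by
  have hS := commSet_unitary hu.isom hu.coisom
  have hN := noMin_of_commute hS.star hS.comm
  obtain ⟨g, hg⟩ := exists_halving hN
  obtain ⟨a, haS, haH, haT⟩ := exists_isTree hg Co.one IsProj.one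
  have hH := extH_halving hφ (h₀ := h₀) hg hh
  obtain ⟨U, -, hUH, hUT⟩ := exists_isTree hH Co.one IsProj.one
  refine ⟨a, haH.haarU, haS u (by simp), U, hUH.haarU, ?_⟩
  intro 𝒰 _ x hx
  have hx1 : x * iU 𝒰 U = iU 𝒰 U * x := hx.symm
  have hx2 : x * iU 𝒰 (star U) = iU 𝒰 (star U) * x := by
    have h1 : star (iU 𝒰 U) * iU 𝒰 U = 1 := by rw [← map_star, ← map_mul, hUH.src, map_one]
    have h2 : iU 𝒰 U * star (iU 𝒰 U) = 1 := by rw [← map_star, ← map_mul, hUH.rng, map_one]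
    rw [map_star]
    exact (comm_star_of_unitary h1 h2 hx).symm
  obtain ⟨-, -, d', hd', c1, c2, c3⟩ := tree_descend_UP 𝒰 hH Co.one IsProj.one hUT hx1 hx2 m
  have hit := (extH_iter (S := ({u, star u} : Set K)) (g := g) hφ hh hm m le_rfl).1
  rw [hit, ← hem] at hd' c1
  have hda : d' = φ a := T2.unique hd' (isTree_map hφ hg haT)
  rw [hda] at c2 c3
  refine ⟨c1, c2, ?_⟩
  rw [← map_star]; exact c3

theorem dyadic_aux (hφ : CornerMap φ e) {h₀ : M → M} (hh : IsHalving (∅ : Set M) h₀) {m : ℕ}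
    (hm : tau e = 1 / 2 ^ m) (hem : e = h₀^[m] 1)
    (hM : ∀ u v : M, HaarU u → HaarU v → Conn 3 u v) {u v : K} (hu : HaarU u) (hv : HaarU v) :
    Conn 5 u v := by
  obtain ⟨a, haH, hua, U, hU, hUc⟩ := exists_generator hφ hh hm hem hu
  obtain ⟨b, hbH, hvb, V, hV, hVc⟩ := exists_generator hφ hh hm hem hv
  haveI : Fact (((hyperfilter ℕ : Ultrafilter ℕ) : Filter ℕ) ≤ atTop) :=
    ⟨Nat.hyperfilter_le_atTop⟩
  obtain ⟨w, hw0, hw4, hwH, hwc⟩ := exists_chain_UP (hyperfilter ℕ) Nat.hyperfilter_le_atTop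
    (hM U V hU hV)
  have e1 : iU (hyperfilter ℕ) U * w 1 = w 1 * iU (hyperfilter ℕ) U := by
    have := hwc 0 (by omega); rwa [hw0] at this
  have e2 : iU (hyperfilter ℕ) V * w 3 = w 3 * iU (hyperfilter ℕ) V := by
    have := hwc 3 (by omega)
    have h4 : w (3 + 1) = iU (hyperfilter ℕ) V := hw4
    rw [h4] at this; exact this.symm
  obtain ⟨p1, a1, a1'⟩ := hUc (hyperfilter ℕ) (w 1) e1
  obtain ⟨p3, b3, b3'⟩ := hVc (hyperfilter ℕ) (w 3) e2
  have hP := isProj_iU (hyperfilter ℕ) hφ.proj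
  have hA := isHaarIn_iU (hyperfilter ℕ) (hφ.haar haH.isHaarIn)
  have hB := isHaarIn_iU (hyperfilter ℕ) (hφ.haar hbH.isHaarIn)
  have a1'' : star (w 1) * iU (hyperfilter ℕ) (φ a) = iU (hyperfilter ℕ) (φ a) * star (w 1) :=
    comm_star_of_unitary (hwH 1).isom (hwH 1).coisom a1
  have b3'' : star (w 3) * iU (hyperfilter ℕ) (φ b) = iU (hyperfilter ℕ) (φ b) * star (w 3) :=
    comm_star_of_unitary (hwH 3).isom (hwH 3).coisom b3
  obtain ⟨z₁, z₂, z₃, h1, h2, h3, k1, k2, k3, k4⟩ := chain_in_corner hP (hwH 1) (hwH 2) (hwH 3)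
    (hwc 1 (by omega)) (hwc 2 (by omega)) p1 p3 ⟨hA.mul_left hP, hA.mul_right hP⟩
    ⟨hB.mul_left hP, hB.mul_right hP⟩ a1 a1'' b3 b3''
  have hab : Conn 3 a b := by
    let z : ℕ → UP M (hyperfilter ℕ) := fun i =>
      match i with
      | 0 => iU (hyperfilter ℕ) (φ a)
      | 1 => z₁
      | 2 => z₂
      | 3 => z₃
      | _ => iU (hyperfilter ℕ) (φ b)
    refine conn_of_chain_UP (hyperfilter ℕ) hφ haH hbH z rfl rfl ?_ ?_
    · intro i hi
      interval_cases i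
      · exact hA
      · exact h1
      · exact h2
      · exact h3
      · exact hB
    · intro i hi
      interval_cases i
      · exact k1
      · exact k2
      · exact k3
      · exact k4
  have c1 : Conn 0 u a := Conn.of_commute hu haH hua
  have c2 : Conn 0 b v := Conn.of_commute hbH hv hvb.symm
  exact (c1.trans hab).trans c2

/-- **Chains with three intermediates pass to dyadic corners.** -/
theorem dyadic_corner (hφ : CornerMap φ e) {m : ℕ} (hm : tau e = 1 / 2 ^ m)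
    (hM : ∀ u v : M, HaarU u → HaarU v → Conn 3 u v) {u v : K} (hu : HaarU u) (hv : HaarU v) :
    Conn 5 u v := by
  obtain ⟨h₀, hh⟩ := exists_halving (noMin_empty (M := M))
  obtain ⟨-, hp, ht⟩ := extH_iter (S := (∅ : Set K)) (g := id) hφ hh hm m le_rfl
  obtain ⟨w, hw1, hw2⟩ := equiv_of_tau hφ.proj hp (by rw [hm, ht])
  obtain ⟨ψ, hψ⟩ := hφ.conj hw1 hw2
  exact dyadic_aux hψ hh ht rfl hM hu hv

end Extend

end SCO
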