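import Pool.Agent.Work.MP_52dd0f_an_helper59.Ultra1

/-!
# The tracial ultrapower as a tracial von Neumann algebra
-/

set_option autoImplicit false

namespace SCO

open Filter Topology
open scoped ComplexOrder ComplexConjugate BoundedContinuousFunction InnerProductSpace

universe u v

section General

variable {A : Type*} [CStarAlgebra A]

theorem spectrum_sq_nonneg' (x : A) {t : ℝ} (ht : t ∈ spectrum ℝ (star x * x)) : 0 ≤ t := by
  let _ := CStarAlgebra.spectralOrder A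
  have _ := CStarAlgebra.spectralOrderedRing A
  exact spectrum_nonneg_of_nonneg (star_mul_self_nonneg x) ht

theorem norm_mul_cfc_cutf_le (x : A) : ‖x * cfc cutf (star x * x)‖ ≤ 1 := by
  have hc := cutf_cont
  have hid : ContinuousOn (fun t : ℝ => t) (spectrum ℝ (star x * x)) := continuousOn_id
  have e : star (x * cfc cutf (star x * x)) * (x * cfc cutf (star x * x)) =
      cfc (fun t => cutf t * t * cutf t) (star x * x) := by
    have h1 : star (cfc cutf (star x * x)) = cfc cutf (star x * x) :=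
      (cfc_predicate cutf (star x * x) : IsSelfAdjoint _)
    rw [cfc_mul (fun t => cutf t * t) cutf _ (hc.continuousOn.mul hid) hc.continuousOn,
      cfc_mul cutf (fun t => t) _ hc.continuousOn hid, cfc_id' ℝ (star x * x), star_mul, h1]
    noncomm_ring
  have h1 : ‖x * cfc cutf (star x * x)‖ * ‖x * cfc cutf (star x * x)‖ ≤ 1 := by
    rw [← CStarRing.norm_star_mul_self, e]
    refine norm_cfc_le zero_le_one fun t ht => ?_
    have ht0 := spectrum_sq_nonneg' x ht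
    rcases le_total t 1 with h | h
    · rw [cutf_of_le h, one_mul, mul_one, Real.norm_of_nonneg ht0]; exact h
    · rw [cutf_of_ge h]
      have h2 : 0 < Real.sqrt t := Real.sqrt_pos.2 (by linarith)
      have h3 : (Real.sqrt t)⁻¹ * t * (Real.sqrt t)⁻¹ = 1 := by
        have := Real.mul_self_sqrt ht0
        field_simp
        nlinarith
      rw [h3, norm_one]
  by_contra h
  push Not at h
  nlinarith

theorem cfc_cutf_of_norm_le [Nontrivial A] {x : A} (hx : ‖x‖ ≤ 1) : cfc cutf (star x * x) = 1 := by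
  have hsa : IsSelfAdjoint (star x * x) := IsSelfAdjoint.star_mul_self x
  rw [← cfc_const_one ℝ (star x * x) hsa]
  refine cfc_congr fun t ht => ?_
  apply cutf_of_le
  have h1 := spectrum.norm_le_norm_of_mem ht
  rw [CStarRing.norm_star_mul_self] at h1
  have h2 : ‖x‖ * ‖x‖ ≤ 1 := by nlinarith [norm_nonneg x]
  exact (le_abs_self t).trans (h1.trans h2)

theorem starHom_norm_le {A B : Type*} [CStarAlgebra A] [CStarAlgebra B] (f : A →⋆ₐ[ℂ] B) (x : A) :
    ‖f x‖ ≤ ‖x‖ := NonUnitalStarAlgHom.norm_apply_le f x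

theorem starHom_continuous {A B : Type*} [CStarAlgebra A] [CStarAlgebra B] (f : A →⋆ₐ[ℂ] B) :
    Continuous f :=
  AddMonoidHomClass.continuous_of_bound f 1 fun x => by rw [one_mul]; exact starHom_norm_le f x

end General

section Ultra

variable {M : Type u} [CStarAlgebra M] [TrC M] (𝒰 : Ultrafilter ℕ)

instance : Nontrivial (HS M 𝒰) := by
  refine ⟨⟨vec 𝒰 1, 0, fun h => ?_⟩⟩
  have h1 := norm_vec_sq 𝒰 (1 : Sq M)
  rw [h, star_one, mul_one, phi_one] at h1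
  simp at h1

instance : Nontrivial (Sq M) := by
  refine ⟨⟨1, 0, fun h => ?_⟩⟩
  have : (1 : Sq M).ev 0 = (0 : Sq M).ev 0 := by rw [h]
  exact one_ne_zero this

theorem rep_continuous : Continuous (rep (M := M) 𝒰) := starHom_continuous (rep 𝒰)

theorem norm_rep_le (x : Sq M) : ‖rep 𝒰 x‖ ≤ ‖x‖ := starHom_norm_le (rep 𝒰) x

/-- every element of the image with norm at most one has a lift with norm at most one -/
theorem exists_lift {x : Sq M} (hx : ‖rep 𝒰 x‖ ≤ 1) : ∃ x' : Sq M, ‖x'‖ ≤ 1 ∧ rep 𝒰 x' = rep 𝒰 x := by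
  refine ⟨x * cfc cutf (star x * x), norm_mul_cfc_cutf_le x, ?_⟩
  have hφa : IsSelfAdjoint (rep 𝒰 (star x * x)) := by
    rw [map_mul, map_star]
    exact IsSelfAdjoint.star_mul_self _
  have h1 : rep 𝒰 (cfc cutf (star x * x)) = cfc cutf (rep 𝒰 (star x * x)) :=
    StarAlgHom.map_cfc (rep 𝒰) cutf (star x * x) cutf_cont.continuousOn (rep_continuous 𝒰)
      (IsSelfAdjoint.star_mul_self x) hφa
  rw [map_mul, h1, map_mul, map_star, cfc_cutf_of_norm_le hx, mul_one]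

theorem exists_lift' (x : Sq M) : ∃ x' : Sq M, ‖x'‖ ≤ ‖rep 𝒰 x‖ ∧ rep 𝒰 x' = rep 𝒰 x := by
  rcases eq_or_ne (rep 𝒰 x) 0 with h | h
  · exact ⟨0, by rw [h]; simp, by rw [map_zero, h]⟩
  · have hpos : 0 < ‖rep 𝒰 x‖ := norm_pos_iff.2 h
    obtain ⟨y, hy1, hy2⟩ := exists_lift 𝒰 (x := ((‖rep 𝒰 x‖⁻¹ : ℝ) : ℂ) • x) (by
      rw [map_smul, norm_smul, Complex.norm_real, Real.norm_of_nonneg (by positivity),
        inv_mul_cancel₀ hpos.ne'])
    refine ⟨((‖rep 𝒰 x‖ : ℝ) : ℂ) • y, ?_, ?_⟩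
    · rw [norm_smul, Complex.norm_real, Real.norm_of_nonneg hpos.le]
      exact mul_le_of_le_one_right hpos.le hy1
    · rw [map_smul, hy2, map_smul, smul_smul, ← Complex.ofReal_mul, mul_inv_cancel₀ hpos.ne',
        Complex.ofReal_one, one_smul]

theorem isClosed_range : IsClosed ((rep (M := M) 𝒰).range : Set (HS M 𝒰 →L[ℂ] HS M 𝒰)) := by
  let f : NormedAddGroupHom (Sq M) (HS M 𝒰 →L[ℂ] HS M 𝒰) :=
    { toFun := rep 𝒰
      map_add' := fun x y => map_add _ x y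
      bound' := ⟨1, fun x => by rw [one_mul]; exact norm_rep_le 𝒰 x⟩ }
  let K : AddSubgroup (HS M 𝒰 →L[ℂ] HS M 𝒰) := f.range
  have hyp : f.SurjectiveOnWith K 1 := by
    rintro _ ⟨x, rfl⟩
    obtain ⟨x', h1, h2⟩ := exists_lift' 𝒰 x
    exact ⟨x', h2, by rw [one_mul]; exact h1⟩
  have h2 := controlled_closure_of_complete one_pos one_pos hyp
  have hKe : (K : Set (HS M 𝒰 →L[ℂ] HS M 𝒰)) = ((rep (M := M) 𝒰).range : Set _) := by
    ext y; constructor
    · rintro ⟨x, rfl⟩; exact ⟨x, rfl⟩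
    · rintro ⟨x, rfl⟩; exact ⟨x, rfl⟩
  rw [← hKe]
  refine isClosed_of_closure_subset fun y hy => ?_
  obtain ⟨x, hx, -⟩ := h2 y hy
  exact ⟨x, hx⟩

/-- The tracial ultrapower. -/
def UP (M : Type u) [CStarAlgebra M] [TrC M] (𝒰 : Ultrafilter ℕ) : Type u :=
  ↥((rep (M := M) 𝒰).range)

noncomputable instance : CStarAlgebra (UP M 𝒰) :=
  StarSubalgebra.cstarAlgebra (rep (M := M) 𝒰).range (h_closed := isClosed_range 𝒰)

/-- the class of a bounded sequence -/
noncomputable def toUP : Sq M →⋆ₐ[ℂ] UP M 𝒰 := (rep 𝒰).rangeRestrict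

/-- the inclusion in bounded operators -/
def UP.val (x : UP M 𝒰) : HS M 𝒰 →L[ℂ] HS M 𝒰 := Subtype.val x

theorem UP.val_injective : Function.Injective (UP.val (M := M) 𝒰) := Subtype.val_injective

theorem UP.val_toUP (x : Sq M) : UP.val 𝒰 (toUP 𝒰 x) = rep 𝒰 x := rfl

theorem toUP_surjective : Function.Surjective (toUP (M := M) 𝒰) := by
  rintro ⟨_, ⟨x, rfl⟩⟩
  exact ⟨x, rfl⟩

theorem toUP_eq_iff (x y : Sq M) : toUP 𝒰 x = toUP 𝒰 y ↔ Eq2 (𝒰 : Filter ℕ) x.ev y.ev := by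
  rw [← rep_eq_iff, ← UP.val_toUP, ← UP.val_toUP]
  exact (UP.val_injective 𝒰).eq_iff.symm

theorem UP.norm_def (x : UP M 𝒰) : ‖x‖ = ‖UP.val 𝒰 x‖ := rfl

theorem exists_lift_UP (y : UP M 𝒰) : ∃ x : Sq M, ‖x‖ ≤ ‖y‖ ∧ toUP 𝒰 x = y := by
  obtain ⟨x, rfl⟩ := toUP_surjective 𝒰 y
  obtain ⟨x', h1, h2⟩ := exists_lift' 𝒰 x
  exact ⟨x', h1, UP.val_injective 𝒰 h2⟩

/-- the trace on the ultrapower -/
noncomputable def trUP : UP M 𝒰 →ₗ[ℂ] ℂ where
  toFun x := trU 𝒰 (UP.val 𝒰 x)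
  map_add' x y := map_add (trU 𝒰) (UP.val 𝒰 x) (UP.val 𝒰 y)
  map_smul' c x := map_smul (trU 𝒰) c (UP.val 𝒰 x)

theorem trUP_toUP (x : Sq M) : trUP 𝒰 (toUP 𝒰 x) = phi 𝒰 x := trU_rep 𝒰 x

noncomputable instance : TrC (UP M 𝒰) where
  tr := trUP 𝒰
  tr_one := by
    rw [← map_one (toUP (M := M) 𝒰), trUP_toUP, phi_one]
  tr_comm x y := by
    obtain ⟨x, rfl⟩ := toUP_surjective 𝒰 x
    obtain ⟨y, rfl⟩ := toUP_surjective 𝒰 y
    rw [← map_mul, ← map_mul, trUP_toUP, trUP_toUP, phi_comm]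
  tr_pos x := by
    obtain ⟨x, rfl⟩ := toUP_surjective 𝒰 x
    rw [← map_star, ← map_mul, trUP_toUP]
    exact phi_nonneg 𝒰 x
  tr_faithful x h := by
    obtain ⟨x, rfl⟩ := toUP_surjective 𝒰 x
    rw [← map_star, ← map_mul, trUP_toUP] at h
    have h1 := phi_star_mul 𝒰 x
    rw [h, Complex.zero_re] at h1
    have h2 := h1.sqrt
    rw [Real.sqrt_zero] at h2
    have h3 : Tendsto (fun k => n2 (x.ev k)) (𝒰 : Filter ℕ) (𝓝 0) :=
      h2.congr fun k => Real.sqrt_sq (n2_nonneg _)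
    rw [← map_zero (toUP (M := M) 𝒰), toUP_eq_iff]
    exact h3.congr fun k => by
      show n2 (x.ev k) = n2 (x.ev k - 0)
      rw [sub_zero]

theorem tr_toUP (x : Sq M) : tr (toUP 𝒰 x) = phi 𝒰 x := trUP_toUP 𝒰 x

theorem tendsto_tr_toUP (x : Sq M) :
    Tendsto (fun k => tr (x.ev k)) (𝒰 : Filter ℕ) (𝓝 (tr (toUP 𝒰 x))) := by
  rw [tr_toUP]; exact phi_spec 𝒰 x

theorem tendsto_n2_toUP (x : Sq M) :
    Tendsto (fun k => n2 (x.ev k)) (𝒰 : Filter ℕ) (𝓝 (n2 (toUP 𝒰 x))) := by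
  have h1 := phi_star_mul 𝒰 x
  rw [← trUP_toUP, map_mul, map_star] at h1
  have h2 := h1.sqrt
  have h3 : Real.sqrt (trUP 𝒰 (star (toUP 𝒰 x) * toUP 𝒰 x)).re = n2 (toUP 𝒰 x) := rfl
  rw [h3] at h2
  exact h2.congr fun k => Real.sqrt_sq (n2_nonneg _)

/-- diagonal sequences -/
theorem exists_diagonal (h𝒰 : (𝒰 : Filter ℕ) ≤ atTop) (x : ℕ → ℕ → M)
    (hx : ∀ i, ∀ᶠ k in (𝒰 : Filter ℕ), n2 (x (i + 1) k - x i k) < (1 / 2) ^ i) :
    ∃ m : ℕ → ℕ, ∀ i, ∀ᶠ k in (𝒰 : Filter ℕ), n2 (x (m k) k - x i k) ≤ 2 * (1 / 2) ^ i := by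
  classical
  let P : ℕ → ℕ → Prop := fun k m => ∀ i < m, n2 (x (i + 1) k - x i k) < (1 / 2) ^ i
  refine ⟨fun k => Nat.findGreatest (P k) k, fun i => ?_⟩
  have h1 : ∀ᶠ k in (𝒰 : Filter ℕ), P k i := by
    have : ∀ᶠ k in (𝒰 : Filter ℕ), ∀ j ∈ Finset.range i, n2 (x (j + 1) k - x j k) < (1 / 2) ^ j :=
      (Filter.eventually_all_finset _).2 fun j _ => hx j
    filter_upwards [this] with k hk j hj
    exact hk j (Finset.mem_range.2 hj)
  have h2 : ∀ᶠ k in (𝒰 : Filter ℕ), i ≤ k := h𝒰 (eventually_ge_atTop i)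
  filter_upwards [h1, h2] with k hk1 hk2
  set m := Nat.findGreatest (P k) k with hm
  have hmi : i ≤ m := Nat.le_findGreatest hk2 hk1
  have hPm : P k m := Nat.findGreatest_spec (P := P k) hk2 hk1
  -- telescoping
  have key : ∀ j, i + j ≤ m → n2 (x (i + j) k - x i k) ≤ 2 * (1 / 2) ^ i * (1 - (1 / 2) ^ j) := by
    intro j
    induction j with
    | zero => intro _; simp
    | succ j ih =>
      intro hj
      have h3 := ih (by omega)
      have h4 := hPm (i + j) (by omega)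
      have h5 := n2_triangle (x (i + j + 1) k) (x (i + j) k) (x i k)
      rw [← add_assoc]
      calc n2 (x (i + j + 1) k - x i k) ≤ (1 / 2) ^ (i + j) +
            2 * (1 / 2) ^ i * (1 - (1 / 2) ^ j) := by linarith
        _ = _ := by rw [pow_add, pow_succ]; ring
  obtain ⟨j, hj⟩ := Nat.exists_eq_add_of_le hmi
  rw [hj]
  refine (key j (by omega)).trans ?_
  have h6 : (0 : ℝ) ≤ (1 / 2) ^ j := by positivity
  have h7 : (0 : ℝ) ≤ 2 * (1 / 2) ^ i := by positivity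
  nlinarith

theorem UP.complete1 (h𝒰 : (𝒰 : Filter ℕ) ≤ atTop) (y : ℕ → UP M 𝒰) (hy : ∀ k, ‖y k‖ ≤ 1)
    (hc : ∀ ε > 0, ∃ K, ∀ k ≥ K, ∀ l ≥ K, n2 (y k - y l) < ε) : ∃ z : UP M 𝒰, T2 atTop y z := by
  classical
  choose x hx1 hx2 using fun j => exists_lift_UP 𝒰 (y j)
  have hlim : ∀ i j, Tendsto (fun k => n2 ((x i).ev k - (x j).ev k)) (𝒰 : Filter ℕ)
      (𝓝 (n2 (y i - y j))) := fun i j => by
    have := tendsto_n2_toUP 𝒰 (x i - x j)
    rw [map_sub, hx2, hx2] at this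
    exact this
  choose K hK using fun m : ℕ => hc ((1 / 2) ^ m) (by positivity)
  -- monotone subsequence
  let J : ℕ → ℕ := fun m => (Finset.range (m + 1)).sup K
  have hJK : ∀ m, K m ≤ J m := fun m =>
    Finset.le_sup (f := K) (Finset.mem_range.2 (Nat.lt_succ_self m))
  have hJmono : ∀ m, J m ≤ J (m + 1) := fun m =>
    Finset.sup_mono (Finset.range_mono (Nat.le_succ _))
  have hstep : ∀ i, ∀ᶠ k in (𝒰 : Filter ℕ),
      n2 ((x (J (i + 1))).ev k - (x (J i)).ev k) < (1 / 2) ^ i :=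
    fun i => (tendsto_order.1 (hlim _ _)).2 _
      (hK i _ ((hJK i).trans (hJmono i)) _ (hJK i))
  obtain ⟨m, hm⟩ := exists_diagonal 𝒰 h𝒰 (fun i => (x (J i)).ev) hstep
  let z : Sq M := Sq.mk (fun k => (x (J (m k))).ev k) 1 fun k =>
      ((x (J (m k))).norm_ev_le k).trans ((hx1 _).trans (hy _))
  refine ⟨toUP 𝒰 z, ?_⟩
  have hbound : ∀ i, n2 (toUP 𝒰 z - y (J i)) ≤ 2 * (1 / 2) ^ i := by
    intro i
    have h1 := tendsto_n2_toUP 𝒰 (z - x (J i))
    rw [map_sub, hx2] at h1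
    refine le_of_tendsto h1 ?_
    filter_upwards [hm i] with k hk
    exact hk
  unfold T2
  rw [Metric.tendsto_atTop]
  intro ε hε
  obtain ⟨i, hi⟩ := exists_pow_lt_of_lt_one (show (0 : ℝ) < ε / 3 by positivity)
    (show (1 / 2 : ℝ) < 1 by norm_num)
  refine ⟨J i, fun n hn => ?_⟩
  rw [Real.dist_eq, sub_zero, abs_of_nonneg (n2_nonneg _)]
  have h1 := hK i n ((hJK i).trans hn) (J i) (hJK i)
  have h2 := hbound i
  have h3 := n2_triangle (y n) (y (J i)) (toUP 𝒰 z)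
  rw [n2_sub_comm (y (J i))] at h3
  linarith

/-- The tracial ultrapower along a non-principal ultrafilter is a tracial von Neumann algebra. -/
noncomputable instance instTVNUP [h : Fact ((𝒰 : Filter ℕ) ≤ atTop)] : TVN (UP M 𝒰) where
  complete1 := UP.complete1 𝒰 h.out

end Ultra

section Emb

variable {M : Type u} [CStarAlgebra M] [TrC M] (𝒰 : Ultrafilter ℕ)

/-- constant sequences -/
noncomputable def cstSq : M →⋆ₐ[ℂ] Sq M where
  toFun a := Sq.mk (fun _ => a) ‖a‖ fun _ => le_rfl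
  map_one' := rfl
  map_mul' _ _ := rfl
  map_zero' := rfl
  map_add' _ _ := rfl
  commutes' _ := rfl
  map_star' _ := rfl

/-- the embedding of `M` in its ultrapower -/
noncomputable def iU : M →⋆ₐ[ℂ] UP M 𝒰 := (toUP 𝒰).comp cstSq

theorem tr_iU (a : M) : tr (iU 𝒰 a) = tr a := by
  have h := tendsto_tr_toUP 𝒰 (cstSq a)
  exact tendsto_nhds_unique h tendsto_const_nhds

theorem n2_iU (a : M) : n2 (iU 𝒰 a) = n2 a := by
  have h := tendsto_n2_toUP 𝒰 (cstSq a)
  exact tendsto_nhds_unique h tendsto_const_nhds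

/-- bounded sequences as elements of `Sq M` -/
noncomputable def mkSq (x : ℕ → M) (h : Bdd x) : Sq M := Sq.mk x h.choose h.choose_spec

omit [TrC M] in
@[simp] theorem mkSq_ev (x : ℕ → M) (h : Bdd x) : (mkSq x h).ev = x := rfl

omit [TrC M] in
theorem bdd_sq (x : Sq M) : Bdd x.ev := ⟨‖x‖, fun k => x.norm_ev_le k⟩

theorem haarU_toUP_iff (x : Sq M) : HaarU (toUP 𝒰 x) ↔ IsHaarU 𝒰 tr x.ev := by
  have ea : (star x * x).ev = fun k => star (x.ev k) * x.ev k := funext fun k => by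
    rw [Sq.ev_mul, Sq.ev_star]
  have eb : (x * star x).ev = fun k => x.ev k * star (x.ev k) := funext fun k => by
    rw [Sq.ev_mul, Sq.ev_star]
  have ec : (1 : Sq M).ev = fun _ => (1 : M) := funext fun k => Sq.ev_one k
  constructor
  · intro h
    refine ⟨bdd_sq x, ?_, ?_, fun m hm => ⟨?_, ?_⟩⟩
    · have h1 : toUP 𝒰 (star x * x) = toUP 𝒰 1 := by rw [map_mul, map_star, map_one, h.isom]
      have h2 := (toUP_eq_iff 𝒰 _ _).1 h1
      rw [ea, ec] at h2
      exact h2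
    · have h1 : toUP 𝒰 (x * star x) = toUP 𝒰 1 := by rw [map_mul, map_star, map_one, h.coisom]
      have h2 := (toUP_eq_iff 𝒰 _ _).1 h1
      rw [eb, ec] at h2
      exact h2
    · have h1 := tendsto_tr_toUP 𝒰 (x ^ m)
      rw [map_pow, h.haar m (Nat.one_le_iff_ne_zero.2 hm)] at h1
      simpa only [Sq.ev_pow] using h1
    · have h1 := tendsto_tr_toUP 𝒰 (x ^ m)
      rw [map_pow, h.haar m (Nat.one_le_iff_ne_zero.2 hm)] at h1
      have h2 := (Complex.continuous_conj.tendsto _).comp h1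
      rw [map_zero] at h2
      refine h2.congr fun k => ?_
      rw [Function.comp_apply, ← tr_star, Sq.ev_pow, star_pow]
  · intro h
    refine ⟨?_, ?_, fun m hm => ?_⟩
    · rw [← map_star, ← map_mul, ← map_one (toUP (M := M) 𝒰), toUP_eq_iff, ea, ec]
      exact h.star_mul
    · rw [← map_star, ← map_mul, ← map_one (toUP (M := M) 𝒰), toUP_eq_iff, eb, ec]
      exact h.mul_star
    · rw [← map_pow]
      have h1 := tendsto_tr_toUP 𝒰 (x ^ m)
      simp only [Sq.ev_pow] at h1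
      exact tendsto_nhds_unique h1 (h.haar m (by omega)).1

theorem commute_toUP_iff (x y : Sq M) : toUP 𝒰 x * toUP 𝒰 y = toUP 𝒰 y * toUP 𝒰 x ↔
    EqU 𝒰 tr (fun k => x.ev k * y.ev k) (fun k => y.ev k * x.ev k) := by
  have ea : (x * y).ev = fun k => x.ev k * y.ev k := funext fun k => Sq.ev_mul x y k
  have eb : (y * x).ev = fun k => y.ev k * x.ev k := funext fun k => Sq.ev_mul y x k
  rw [← map_mul, ← map_mul, toUP_eq_iff, ea, eb]; rfl

end Emb

end SCO
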