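import Pool.Agent.Work.MP_52dd0f_an_helper59.Spec
import Pool.Agent.Work.MP_52dd0f_an_helper59.Ultra2

/-!
# Chains in the ultrapower and in its corners
-/

set_option linter.unusedSectionVars false
set_option autoImplicit false

namespace SCO

open Filter Topology
open scoped ComplexOrder ComplexConjugate

universe u v

section

variable {M : Type u} [CStarAlgebra M] [TVN M] (𝒰 : Ultrafilter ℕ)

theorem exists_chain_UP (h𝒰 : (𝒰 : Filter ℕ) ≤ atTop) {n : ℕ} {u v : M} (h : Conn n u v) :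
    ∃ w : ℕ → UP M 𝒰, w 0 = iU 𝒰 u ∧ w (n + 1) = iU 𝒰 v ∧ (∀ i, HaarU (w i)) ∧
      ∀ i ≤ n, w i * w (i + 1) = w (i + 1) * w i := by
  have hε : ∀ k : ℕ, (0 : ℝ) < 1 / ((k : ℝ) + 1) := fun k => by positivity
  choose w h0 h1 h2 h3 using fun k : ℕ => h (1 / ((k : ℝ) + 1)) (hε k) k
  have ht : Tendsto (fun k : ℕ => 1 / ((k : ℝ) + 1)) (𝒰 : Filter ℕ) (𝓝 0) :=
    tendsto_one_div_add_atTop_nhds_zero_nat.mono_left h𝒰
  have hH : ∀ i, IsHaarU 𝒰 (tr : M →ₗ[ℂ] ℂ) (fun k => w k i) := by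
    intro i
    have key : ∀ m : ℕ, m ≠ 0 → Tendsto (fun k => tr (w k i ^ m)) (𝒰 : Filter ℕ) (𝓝 0) := by
      intro m hm
      rw [tendsto_zero_iff_norm_tendsto_zero]
      refine squeeze_zero' (Eventually.of_forall fun _ => norm_nonneg _) ?_ ht
      have : ∀ᶠ k in (𝒰 : Filter ℕ), m ≤ k := h𝒰 (eventually_ge_atTop m)
      filter_upwards [this] with k hk
      exact ((h2 k i).haar m (Nat.one_le_iff_ne_zero.2 hm) hk).le
    refine ⟨⟨1, fun k => (h2 k i).norm_le⟩, ?_, ?_, fun m hm => ⟨key m hm, ?_⟩⟩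
    · exact squeeze_zero (fun _ => n2_nonneg _) (fun k => (h2 k i).isom.le) ht
    · exact squeeze_zero (fun _ => n2_nonneg _) (fun k => (h2 k i).coisom.le) ht
    · have := (Complex.continuous_conj.tendsto _).comp (key m hm)
      rw [map_zero] at this
      refine this.congr fun k => ?_
      rw [Function.comp_apply, ← tr_star, star_pow]
  have hb : ∀ i, Bdd (fun k => w k i) := fun i => (hH i).bounded
  refine ⟨fun i => toUP 𝒰 (mkSq (fun k => w k i) (hb i)), ?_, ?_, fun i => ?_, fun i hi => ?_⟩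
  · show toUP 𝒰 (mkSq (fun k => w k 0) (hb 0)) = toUP 𝒰 (cstSq u)
    rw [toUP_eq_iff, mkSq_ev]
    have : (fun k => w k 0) = (cstSq u).ev := funext fun k => h0 k
    rw [this]; exact Eq2.refl _
  · show toUP 𝒰 (mkSq (fun k => w k (n + 1)) (hb (n + 1))) = toUP 𝒰 (cstSq v)
    rw [toUP_eq_iff, mkSq_ev]
    have : (fun k => w k (n + 1)) = (cstSq v).ev := funext fun k => h1 k
    rw [this]; exact Eq2.refl _
  · rw [haarU_toUP_iff, mkSq_ev]; exact hH i
  · rw [commute_toUP_iff, mkSq_ev, mkSq_ev]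
    exact squeeze_zero (fun _ => n2_nonneg _) (fun k => (h3 k i hi).le) ht

end

section Corner

variable {K M : Type u} [CStarAlgebra K] [TVN K] [CStarAlgebra M] [TVN M]
  {φ : K →⋆ₙₐ[ℂ] M} {e : M} (𝒰 : Ultrafilter ℕ) [hF : Fact ((𝒰 : Filter ℕ) ≤ atTop)]

theorem CornerMap.n2_lt (h : CornerMap φ e) {y : K} {ε : ℝ} (hε : 0 < ε)
    (hy : n2 (φ y) < ε * tau e) : n2 y < ε := by
  have h1 := h.n2_sq y
  have h2 := h.tau_pos
  have h3 := h.proj.tau_le_one
  have h4 : n2 (φ y) ^ 2 < (ε * tau e) ^ 2 := pow_lt_pow_left₀ hy (n2_nonneg _) (by norm_num)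
  rw [h1] at h4
  have h5 : tau e * n2 y ^ 2 < tau e * (ε ^ 2 * tau e) := by nlinarith
  have h6 := lt_of_mul_lt_mul_left h5 h2.le
  have h7 : n2 y ^ 2 < ε ^ 2 := by nlinarith [sq_nonneg ε]
  exact lt_of_pow_lt_pow_left₀ 2 hε.le h7

omit hF in
theorem isProj_iU (he : IsProj e) : IsProj (iU 𝒰 e) :=
  ⟨by rw [← map_mul, he.mul], by rw [← map_star, he.star]⟩

/-- chains in a corner of the ultrapower give approximate chains in the corner -/
theorem conn_of_chain_UP (hφ : CornerMap φ e) {n : ℕ} {a b : K} (ha : HaarU a) (hb : HaarU b)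
    (z : ℕ → UP M 𝒰) (h0 : z 0 = iU 𝒰 (φ a)) (h1 : z (n + 1) = iU 𝒰 (φ b))
    (hz : ∀ i ≤ n + 1, IsHaarIn (iU 𝒰 e) (z i))
    (hc : ∀ i ≤ n, z i * z (i + 1) = z (i + 1) * z i) : Conn n a b := by
  classical
  have he := hφ.proj
  have hE : IsProj (iU 𝒰 e) := isProj_iU 𝒰 he
  have ht := hφ.tau_pos
  have ht1 := he.tau_le_one
  intro ε hε l
  -- lifts
  have hlift : ∀ i, ∃ x : Sq M, ((i = 0 → x = cstSq (φ a)) ∧ (i ≠ 0 → i = n + 1 → x = cstSq (φ b))) ∧
      (i ≤ n + 1 → (∀ k, ‖x.ev k‖ ≤ 1) ∧ toUP 𝒰 x = z i) := by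
    intro i
    by_cases hi0 : i = 0
    · refine ⟨cstSq (φ a), ⟨fun _ => rfl, fun h => absurd hi0 h⟩, fun _ => ⟨fun k => ?_, ?_⟩⟩
      · show ‖φ a‖ ≤ 1
        exact (NonUnitalStarAlgHom.norm_apply_le φ a).trans ha.norm_le
      · rw [hi0, h0]; rfl
    by_cases hi1 : i = n + 1
    · refine ⟨cstSq (φ b), ⟨fun h => absurd h hi0, fun _ _ => rfl⟩, fun _ => ⟨fun k => ?_, ?_⟩⟩
      · show ‖φ b‖ ≤ 1
        exact (NonUnitalStarAlgHom.norm_apply_le φ b).trans hb.norm_le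
      · rw [hi1, h1]; rfl
    · by_cases hle : i ≤ n + 1
      · obtain ⟨x, hx1, hx2⟩ := exists_lift_UP 𝒰 (z i)
        exact ⟨x, ⟨fun h => absurd h hi0, fun _ h => absurd h hi1⟩, fun _ =>
          ⟨fun k => ((x.norm_ev_le k).trans hx1).trans (pi_norm_le (pi_of_src (by
            rw [(hz i hle).src]; exact hE))), hx2⟩⟩
      · exact ⟨0, ⟨fun h => absurd h hi0, fun _ h => absurd h hi1⟩, fun h => absurd h hle⟩
  choose x hx hx' using hlift
  -- compress
  obtain ⟨X, hXev, hXup⟩ : ∃ X : ℕ → Sq M, (∀ i k, (X i).ev k = e * (x i).ev k * e) ∧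
      ∀ i ≤ n + 1, toUP 𝒰 (X i) = z i := by
    refine ⟨fun i => cstSq e * x i * cstSq e, fun i k => ?_, fun i hi => ?_⟩
    · rw [Sq.ev_mul, Sq.ev_mul]; rfl
    · rw [map_mul, map_mul, (hx' i hi).2]
      show iU 𝒰 e * z i * iU 𝒰 e = z i
      rw [(hz i hi).mul_left hE, (hz i hi).mul_right hE]
  have hsurj : ∀ i k, ∃ w : K, φ w = (X i).ev k := fun i k => hφ.surj _ (by
    rw [hXev, ← mul_assoc, ← mul_assoc, he.mul, mul_assoc, he.mul])
  choose w hw using hsurj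
  have hw0 : ∀ k, w 0 k = a := fun k => hφ.inj (by
    rw [hw, hXev, (hx 0).1 rfl]
    exact hφ.corner a)
  have hw1 : ∀ k, w (n + 1) k = b := fun k => hφ.inj (by
    rw [hw, hXev, (hx (n + 1)).2 (by omega) rfl]
    exact hφ.corner b)
  have hεt : 0 < ε * tau e := by positivity
  have hA : ∀ i ≤ n + 1, ∀ᶠ k in (𝒰 : Filter ℕ), ApproxHaar ε l (w i k) := by
    intro i hi
    have c1 : ∀ᶠ k in (𝒰 : Filter ℕ), n2 (star (w i k) * w i k - 1) < ε := by
      have h2 := tendsto_n2_toUP 𝒰 (star (X i) * X i - cstSq e)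
      have h3 : toUP 𝒰 (star (X i) * X i - cstSq e) = 0 := by
        rw [map_sub, map_mul, map_star, hXup i hi, (hz i hi).src]
        show iU 𝒰 e - iU 𝒰 e = 0
        rw [sub_self]
      rw [h3, n2_zero] at h2
      filter_upwards [(tendsto_order.1 h2).2 _ hεt] with k hk
      refine hφ.n2_lt hε ?_
      have : (star (X i) * X i - cstSq e).ev k = φ (star (w i k) * w i k - 1) := by
        rw [Sq.ev_sub, Sq.ev_mul, Sq.ev_star, map_sub, map_mul, map_star, hw, hφ.one]; rfl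
      rwa [this] at hk
    have c2 : ∀ᶠ k in (𝒰 : Filter ℕ), n2 (w i k * star (w i k) - 1) < ε := by
      have h2 := tendsto_n2_toUP 𝒰 (X i * star (X i) - cstSq e)
      have h3 : toUP 𝒰 (X i * star (X i) - cstSq e) = 0 := by
        rw [map_sub, map_mul, map_star, hXup i hi, (hz i hi).rng]
        show iU 𝒰 e - iU 𝒰 e = 0
        rw [sub_self]
      rw [h3, n2_zero] at h2
      filter_upwards [(tendsto_order.1 h2).2 _ hεt] with k hk
      refine hφ.n2_lt hε ?_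
      have : (X i * star (X i) - cstSq e).ev k = φ (w i k * star (w i k) - 1) := by
        rw [Sq.ev_sub, Sq.ev_mul, Sq.ev_star, map_sub, map_mul, map_star, hw, hφ.one]; rfl
      rwa [this] at hk
    have c3 : ∀ᶠ k in (𝒰 : Filter ℕ), ∀ j ∈ Finset.Icc 1 l, ‖tr (w i k ^ j)‖ < ε := by
      rw [Filter.eventually_all_finset]
      intro j hj
      have hj1 := (Finset.mem_Icc.1 hj).1
      have h2 := tendsto_tr_toUP 𝒰 (X i ^ j)
      rw [map_pow, hXup i hi, (hz i hi).tr j hj1] at h2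
      have h3 := h2.norm
      rw [norm_zero] at h3
      filter_upwards [(tendsto_order.1 h3).2 _ hεt] with k hk
      obtain ⟨m, rfl⟩ : ∃ m, j = m + 1 := ⟨j - 1, by omega⟩
      rw [Sq.ev_pow, ← hw, CornerMap.pow, hφ.tr, norm_mul, Complex.norm_real, Real.norm_eq_abs,
        abs_of_pos ht] at hk
      nlinarith
    filter_upwards [c1, c2, c3] with k k1 k2 k3
    refine ⟨?_, k1, k2, fun j hj1 hj2 => k3 j (Finset.mem_Icc.2 ⟨hj1, hj2⟩)⟩
    have h4 : ‖φ (w i k)‖ = ‖w i k‖ := NonUnitalStarAlgHom.norm_map φ hφ.inj (w i k)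
    rw [← h4, hw, hXev]
    calc ‖e * (x i).ev k * e‖ ≤ ‖e‖ * ‖(x i).ev k‖ * ‖e‖ :=
          (norm_mul_le _ _).trans (mul_le_mul_of_nonneg_right (norm_mul_le _ _) (norm_nonneg _))
      _ ≤ 1 * 1 * 1 := by
          gcongr
          · exact he.norm_le
          · exact (hx' i hi).1 k
          · exact he.norm_le
      _ = 1 := by norm_num
  have hB : ∀ i ≤ n, ∀ᶠ k in (𝒰 : Filter ℕ),
      n2 (w i k * w (i + 1) k - w (i + 1) k * w i k) < ε := by
    intro i hi
    have h2 := tendsto_n2_toUP 𝒰 (X i * X (i + 1) - X (i + 1) * X i)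
    have h3 : toUP 𝒰 (X i * X (i + 1) - X (i + 1) * X i) = 0 := by
      rw [map_sub, map_mul, map_mul, hXup i (by omega), hXup (i + 1) (by omega), hc i hi, sub_self]
    rw [h3, n2_zero] at h2
    filter_upwards [(tendsto_order.1 h2).2 _ hεt] with k hk
    refine hφ.n2_lt hε ?_
    have : (X i * X (i + 1) - X (i + 1) * X i).ev k =
        φ (w i k * w (i + 1) k - w (i + 1) k * w i k) := by
      rw [Sq.ev_sub, Sq.ev_mul, Sq.ev_mul, map_sub, map_mul, map_mul, hw, hw]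
    rwa [this] at hk
  have hA' : ∀ᶠ k in (𝒰 : Filter ℕ), ∀ i ∈ Finset.range (n + 2), ApproxHaar ε l (w i k) :=
    (Filter.eventually_all_finset _).2 fun i hi => hA i (by have := Finset.mem_range.1 hi; omega)
  have hB' : ∀ᶠ k in (𝒰 : Filter ℕ), ∀ i ∈ Finset.range (n + 1),
      n2 (w i k * w (i + 1) k - w (i + 1) k * w i k) < ε :=
    (Filter.eventually_all_finset _).2 fun i hi => hB i (by have := Finset.mem_range.1 hi; omega)
  obtain ⟨k, hk1, hk2⟩ := (hA'.and hB').exists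
  refine ⟨fun i => w (min i (n + 1)) k, ?_, ?_, fun i => ?_, fun i hi => ?_⟩
  · show w (min 0 (n + 1)) k = a
    rw [Nat.zero_min, hw0]
  · show w (min (n + 1) (n + 1)) k = b
    rw [min_self, hw1]
  · exact hk1 _ (Finset.mem_range.2 (by omega))
  · have e1 : min i (n + 1) = i := min_eq_left (by omega)
    have e2 : min (i + 1) (n + 1) = i + 1 := min_eq_left (by omega)
    beta_reduce
    rw [e1, e2]
    exact hk2 i (Finset.mem_range.2 (by omega))

end Corner

end SCO
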