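import Pool.Agent.Work.MP_52dd0f_an_helper59.Dyadic
import Pool.Agent.Work.MP_52dd0f_an.Main

/-!
# Factors in which all chains are short
-/

set_option linter.unusedSectionVars false
set_option autoImplicit false

namespace SCO

open Filter Topology
open scoped ComplexOrder ComplexConjugate Real

universe u v

section

variable {M : Type u} [CStarAlgebra M] [TrC M]

/-- graded version of `exists_conn_of_seqComm` -/
theorem conn_of_steps {𝒰 : Ultrafilter ℕ} {u v : M} (hu : HaarU u) (hv : HaarU v) {n : ℕ}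
    (x : ℕ → ℕ → M) (h0 : x 0 = fun _ => u) (h1 : x (n + 1) = fun _ => v)
    (h2 : ∀ i < n + 1, Step 𝒰 (tr : M →ₗ[ℂ] ℂ) (x i) (x (i + 1))) : Conn n u v := by
  intro ε hε l
  let y : ℕ → ℕ → M := fun i k => SCO.cut (x (min i (n + 1)) k)
  have hx : ∀ i, IsHaarU 𝒰 (tr : M →ₗ[ℂ] ℂ) (x (min i (n + 1))) := by
    intro i
    rcases Nat.lt_or_ge i (n + 1) with hlt | hge
    · rw [min_eq_left (by omega)]; exact (h2 i hlt).1
    · rw [min_eq_right hge]; exact (h2 n (by omega)).2.1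
  have hy : ∀ i, IsHaarU 𝒰 (tr : M →ₗ[ℂ] ℂ) (y i) := fun i => (hx i).cut.2
  have hxy : ∀ i, Eq2 (𝒰 : Filter ℕ) (x (min i (n + 1))) (y i) := fun i => (hx i).cut.1
  have hb : ∀ i, Bdd (y i) := fun i => (hy i).bounded
  have hbx : ∀ i, Bdd (x (min i (n + 1))) := fun i => (hx i).bounded
  have hcomm : ∀ i ≤ n, Eq2 (𝒰 : Filter ℕ) (fun k => y i k * y (i + 1) k)
      (fun k => y (i + 1) k * y i k) := by
    intro i hi
    have h3 := (h2 i (by omega)).2.2
    have e1 : min i (n + 1) = i := min_eq_left (by omega)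
    have e2 : min (i + 1) (n + 1) = i + 1 := min_eq_left (by omega)
    have a1 := Eq2.mul (hbx i) (hb (i + 1)) (hxy i) (hxy (i + 1))
    have a2 := Eq2.mul (hbx (i + 1)) (hb i) (hxy (i + 1)) (hxy i)
    rw [e1, e2] at a1 a2
    exact (a1.symm.trans h3).trans a2
  have hA : ∀ i, ∀ᶠ k in (𝒰 : Filter ℕ), ApproxHaar ε l (y i k) := by
    intro i
    have c1 : ∀ᶠ k in (𝒰 : Filter ℕ), n2 (star (y i k) * y i k - 1) < ε :=
      (tendsto_order.1 (hy i).star_mul).2 ε hε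
    have c2 : ∀ᶠ k in (𝒰 : Filter ℕ), n2 (y i k * star (y i k) - 1) < ε :=
      (tendsto_order.1 (hy i).mul_star).2 ε hε
    have c3 : ∀ᶠ k in (𝒰 : Filter ℕ), ∀ j ∈ Finset.Icc 1 l, ‖tr (y i k ^ j)‖ < ε := by
      rw [Filter.eventually_all_finset]
      intro j hj
      have hj1 := (Finset.mem_Icc.1 hj).1
      have := ((hy i).haar j (by omega)).1.norm
      rw [norm_zero] at this
      exact (tendsto_order.1 this).2 ε hε
    filter_upwards [c1, c2, c3] with k k1 k2 k3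
    exact ⟨norm_cut_le _, k1, k2, fun j hj1 hj2 => k3 j (Finset.mem_Icc.2 ⟨hj1, hj2⟩)⟩
  have hA' : ∀ᶠ k in (𝒰 : Filter ℕ), ∀ i ∈ Finset.range (n + 2), ApproxHaar ε l (y i k) :=
    (Filter.eventually_all_finset _).2 fun i _ => hA i
  have hB' : ∀ᶠ k in (𝒰 : Filter ℕ), ∀ i ∈ Finset.range (n + 1),
      n2 (y i k * y (i + 1) k - y (i + 1) k * y i k) < ε :=
    (Filter.eventually_all_finset _).2 fun i hi =>
      (tendsto_order.1 (hcomm i (by have := Finset.mem_range.1 hi; omega))).2 ε hε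
  obtain ⟨k, hk1, hk2⟩ := (hA'.and hB').exists
  refine ⟨fun i => y (min i (n + 1)) k, ?_, ?_, fun i => ?_, fun i hi => ?_⟩
  · show SCO.cut (x (min (min 0 (n + 1)) (n + 1)) k) = _
    rw [Nat.zero_min, Nat.zero_min, h0]
    exact cut_of_isometry hu.isom
  · show SCO.cut (x (min (min (n + 1) (n + 1)) (n + 1)) k) = _
    rw [min_self, min_self, h1]
    exact cut_of_isometry hv.isom
  · exact hk1 _ (Finset.mem_range.2 (by omega))
  · have e1 : min i (n + 1) = i := min_eq_left (by omega)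
    have e2 : min (i + 1) (n + 1) = i + 1 := min_eq_left (by omega)
    beta_reduce
    rw [e1, e2]
    exact hk2 i (Finset.mem_range.2 (by omega))

end

/-- all Haar unitaries of `N` are linked through at most three Haar unitaries of the ultrapower -/
def ShortChains (𝒰 : Ultrafilter ℕ) {N : Type u} [CStarAlgebra N] (τ : N →ₗ[ℂ] ℂ) : Prop :=
  ∀ u v : Haar τ, ∃ w₁ w₂ w₃ : ℕ → N, Step 𝒰 τ (fun _ => (u.1 : N)) w₁ ∧ Step 𝒰 τ w₁ w₂ ∧
    Step 𝒰 τ w₂ w₃ ∧ Step 𝒰 τ w₃ (fun _ => (v.1 : N))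

section

variable {N M : Type u} [CStarAlgebra N] [TVN N] [FactorII N] [CStarAlgebra M] [TVN M] [FactorII M]

theorem conn_three {𝒰 : Ultrafilter ℕ} (h : ShortChains 𝒰 (tr : N →ₗ[ℂ] ℂ)) {u v : N}
    (hu : HaarU u) (hv : HaarU v) : Conn 3 u v := by
  obtain ⟨w₁, w₂, w₃, h1, h2, h3, h4⟩ := h hu.toHaar hv.toHaar
  let x : ℕ → ℕ → N := fun i =>
    match i with
    | 0 => fun _ => u
    | 1 => w₁
    | 2 => w₂
    | 3 => w₃
    | _ => fun _ => v
  refine conn_of_steps (𝒰 := 𝒰) hu hv x rfl rfl ?_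
  intro i hi
  interval_cases i
  · exact h1
  · exact h2
  · exact h3
  · exact h4

theorem oneOrbit_of_short (hN : ∀ u v : N, HaarU u → HaarU v → Conn 3 u v) {t : ℝ}
    (h : IsAmplification N (tr : N →ₗ[ℂ] ℂ) M t) : OneOrbit M := by
  let _ := CStarAlgebra.spectralOrder N
  have _ := CStarAlgebra.spectralOrderedRing N
  have hR := h.rel
  have ht := hR.pos
  obtain ⟨A, j1, j2, j3, φ₁, e₁, ψ₁, f₁, hφ₁, hψ₁, htr⟩ := hR
  let _ := CStarAlgebra.spectralOrder A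
  have _ := CStarAlgebra.spectralOrderedRing A
  obtain ⟨m, hm⟩ : ∃ m : ℕ, (1 : ℝ) / 2 ^ m < t := by
    obtain ⟨m, hm⟩ := exists_pow_lt_of_lt_one ht (by norm_num : (1 : ℝ) / 2 < 1)
    exact ⟨m, by rwa [one_div_pow] at hm⟩
  have hm0 : (0 : ℝ) < 1 / 2 ^ m := by positivity
  obtain ⟨e, -, he, -, het⟩ := exists_tau_eq (noMin_empty (M := N)) (co_empty 1) IsProj.one
    (s := 1 / 2 ^ m) hm0.le (by
      rw [tau_one]
      exact div_le_one_of_le₀ (one_le_pow₀ (by norm_num)) (by positivity))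
  have he0 : e ≠ 0 := by
    rintro rfl
    rw [tau_zero] at het
    linarith
  obtain ⟨Y, i1, i2, i3, φ, hφ⟩ := exists_corner he he0
  have hY : OneOrbit Y := fun u v hu hv => ⟨5, dyadic_corner hφ het hN hu hv⟩
  obtain ⟨χ, r, hχ, -⟩ := hψ₁.factor (hφ.comp hφ₁) (by
    rw [hφ₁.tau_map, htr, het]
    have := hφ₁.tau_pos
    nlinarith)
  exact oneOrbit_of_corner hχ hY

end

theorem main_short {N M : Type u} [CStarAlgebra N] [CStarAlgebra M] {τ : N →ₗ[ℂ] ℂ}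
    {σ : M →ₗ[ℂ] ℂ} {𝒰 : Ultrafilter ℕ} (h𝒰 : ∀ k : ℕ, 𝒰 ≠ pure k) (hN : IsII₁Factor N τ)
    (hM : IsII₁Factor M σ) (hs : ShortChains 𝒰 τ) {t : ℝ} (h : IsAmplification N τ M t) :
    numOrbits 𝒰 σ = 1 ∧ numOrbits 𝒰 τ = 1 := by
  let _ := hN.toTVN
  have _ := hN.toFactorII
  let _ := hM.toTVN
  have _ := hM.toFactorII
  have hU := le_atTop_of_ne_pure h𝒰
  have hN3 : ∀ u v : N, HaarU u → HaarU v → Conn 3 u v := fun u v hu hv => conn_three hs hu hv
  refine ⟨(numOrbits_one_iff hU).2 (oneOrbit_of_short hN3 h), (numOrbits_one_iff hU).2 ?_⟩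
  exact fun u v hu hv => ⟨3, hN3 u v hu hv⟩

end SCO
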