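import Pool.Agent.Work.MP_52dd0f_an_helper59.Bessel

/-!
# The dyadic tree of projections is contained in the algebra generated by its Haar unitary
-/

set_option linter.unusedSectionVars false
set_option autoImplicit false

namespace SCO

open Filter Topology
open scoped ComplexOrder ComplexConjugate Real

universe u v

section

variable {M : Type u} [CStarAlgebra M] [TVN M]

theorem IsHaarIn.sq {e d : M} (he : IsProj e) (h : IsHaarIn e d) : IsHaarIn e (d * d) := by
  refine ⟨?_, ?_, fun m hm => ?_⟩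
  · rw [star_mul]
    calc star d * star d * (d * d) = star d * (star d * d) * d := by noncomm_ring
      _ = star d * (e * d) := by rw [h.src, mul_assoc]
      _ = e := by rw [h.mul_left he, h.src]
  · rw [star_mul]
    calc d * d * (star d * star d) = d * (d * star d) * star d := by noncomm_ring
      _ = (d * e) * star d := by rw [h.rng]
      _ = e := by rw [h.mul_right he, h.rng]
  · rw [← pow_two, ← pow_mul]
    exact h.tr _ (by omega)

theorem half_commute {e f d : M} (he : IsProj e) (hf : IsProj f) (hfe : f * e = f)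
    (hd : IsHaarIn e d) (hfd : f * d = d * f)
    (hA : ∃ c, star c * c = (-(Complex.I / 2)) • ((d - star d) * f))
    (hB : ∃ c, star c * c = (Complex.I / 2) • ((d - star d) * (e - f))) {x : M}
    (h1 : x * d = d * x) (h2 : x * star d = star d * x) : x * f = f * x := by
  let _ := CStarAlgebra.spectralOrder M
  have _ := CStarAlgebra.spectralOrderedRing M
  have hef := hf.mul_swap he hfe
  have hfd' : f * star d = star d * f := by
    have := congrArg star hfd; rw [star_mul, star_mul, hf.star] at this; exact this.symm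
  set s : M := (-(Complex.I / 2)) • (d - star d) with hs
  have hsf : s * f = f * s := by
    rw [hs, smul_mul_assoc, mul_smul_comm, sub_mul, mul_sub, hfd, hfd']
  have hde : d * e = d := hd.mul_right he
  have hde' : star d * e = star d := by
    have := congrArg star (hd.mul_left he); rwa [star_mul, he.star] at this
  have hse : s * e = s := by rw [hs, smul_mul_assoc, sub_mul, hde, hde']
  set A : M := s * f with hAd
  set B : M := -(s * (e - f)) with hBd
  have hA0 : 0 ≤ A := by
    obtain ⟨c, hc⟩ := hA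
    have : A = star c * c := by rw [hc, hAd, hs, smul_mul_assoc]
    rw [this]; exact star_mul_self_nonneg c
  have hB0 : 0 ≤ B := by
    obtain ⟨c, hc⟩ := hB
    have : B = star c * c := by rw [hc, hBd, hs, smul_mul_assoc, neg_smul, neg_neg]
    rw [this]; exact star_mul_self_nonneg c
  have hsAB : s = A - B := by
    rw [hAd, hBd, mul_sub, hse]; abel
  have hABm : A * B = 0 := by
    have h3 : f * (e - f) = 0 := by rw [mul_sub, hfe, hf.mul, sub_self]
    rw [hAd, hBd, mul_neg, neg_eq_zero]
    calc s * f * (s * (e - f)) = s * (f * s) * (e - f) := by noncomm_ring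
      _ = s * s * (f * (e - f)) := by
        have hsf' : f * s = s * f := hsf.symm
        rw [hsf']; noncomm_ring
      _ = 0 := by rw [h3, mul_zero]
  have hAp := (CFC.posPart_negPart_unique hsAB hABm hA0 hB0).1
  have hxs : Commute s x := by
    show s * x = x * s
    rw [hs, smul_mul_assoc, mul_smul_comm, sub_mul, mul_sub, h1, h2]
  have hxA : Commute A x := by
    rw [← hAp, CFC.posPart_def]
    exact hxs.cfcₙ_real _
  have hAs : star A = A := (IsSelfAdjoint.of_nonneg hA0).star_eq
  obtain ⟨v, -, hv1, hv2, hv3, hv4, hv5, -, hlim⟩ := polar A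
  set r : M := star v * v with hr
  have hrP : IsProj r := pi_src hv1
  have hxr : x * r = r * x := by
    have hz2 : Commute (star A * A) x := by rw [hAs]; exact hxA.mul_left hxA
    have h6 : ∀ n, Commute (cfc (fN n) (star A * A)) x := fun n => hz2.cfc_real _
    have h7 := hlim.const_mul x
    have h8 := hlim.mul_const x
    have : (fun n => x * cfc (fN n) (star A * A)) = fun n => cfc (fN n) (star A * A) * x :=
      funext fun n => (h6 n).eq.symm
    rw [this] at h7
    exact h7.unique h8
  have hrf : r * f = r := by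
    have h3 : A * (1 - f) = 0 := by
      rw [hAd, mul_assoc, mul_sub, mul_one, hf.mul, sub_self, mul_zero]
    have h4 := hv5 _ h3
    have h5 : r * (1 - f) = 0 := by rw [hr, mul_assoc, h4, mul_zero]
    rw [mul_sub, mul_one, sub_eq_zero] at h5
    exact h5.symm
  have hg : IsProj (f - r) := hrP.sub hf hrf
  have hAg : A * (f - r) = 0 := by
    rw [mul_sub, hv3, hAd, mul_assoc, hf.mul, sub_self]
  have hfg : f * (f - r) = f - r := by rw [mul_sub, hf.mul, hrP.mul_swap hf hrf]
  have hsg : s * (f - r) = 0 := by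
    rw [← hfg, ← mul_assoc]; exact hAg
  have hdg : d * (f - r) = star d * (f - r) := by
    rw [hs, smul_mul_assoc] at hsg
    rcases smul_eq_zero.1 hsg with h3 | h3
    · exfalso
      have : Complex.I / 2 = 0 := by rw [← neg_eq_zero]; exact h3
      simp at this
    · rw [sub_mul, sub_eq_zero] at h3; exact h3
  have heg : e * (f - r) = f - r := by
    rw [← hfg, ← mul_assoc, hef]
  have hddg : d * d * (f - r) = (1 : ℂ) • (f - r) := by
    rw [mul_assoc, hdg, ← mul_assoc, hd.rng, heg, one_smul]
  have := no_eigen he (hd.sq he) hg heg hddg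
  rw [← sub_eq_zero.1 this] at hxr
  exact hxr

/-- limits of positive elements are positive -/
theorem nonneg_of_T2 {ι : Type*} {l : Filter ι} [l.NeBot] {x : ι → M} {y : M}
    (h : T2 l x y) (hx : ∀ k, ∃ c, star c * c = x k) :
    ∃ c, star c * c = y := by
  let _ := CStarAlgebra.spectralOrder M
  have _ := CStarAlgebra.spectralOrderedRing M
  have hys : star y = y := by
    have h1 := h.star
    have h2 : (fun k => star (x k)) = x := funext fun k => by
      obtain ⟨c, hc⟩ := hx k
      rw [← hc, star_mul, star_star]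
    rw [h2] at h1
    exact h1.unique h
  have hsa : IsSelfAdjoint y := hys
  set z := y⁻ with hz
  have hz0 : 0 ≤ z := CFC.negPart_nonneg y
  have hzs : star z = z := (IsSelfAdjoint.of_nonneg hz0).star_eq
  have h1 : Tendsto (fun k => (tr (z * x k * z)).re) l (𝓝 (tr (z * y * z)).re) :=
    (Complex.continuous_re.tendsto _).comp ((h.const_mul z).mul_const z).tr
  have h2 : 0 ≤ (tr (z * y * z)).re := by
    refine ge_of_tendsto' h1 fun k => ?_
    obtain ⟨c, hc⟩ := hx k
    have : z * x k * z = star (c * z) * (c * z) := by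
      rw [star_mul, hzs, ← hc]; noncomm_ring
    rw [this]; exact tr_sq_re_nonneg _
  have h3 : z * y * z = -(z * z * z) := by
    have e1 : y = y⁺ - z := (CFC.posPart_sub_negPart y hsa).symm
    have e2 : z * y⁺ = 0 := CFC.negPart_mul_posPart y
    calc z * y * z = z * (y⁺ - z) * z := by rw [← e1]
      _ = (z * y⁺) * z - z * z * z := by noncomm_ring
      _ = _ := by rw [e2, zero_mul, zero_sub]
  obtain ⟨b, hb⟩ := CStarAlgebra.nonneg_iff_eq_star_mul_self.1 hz0
  have h4 : z * z * z = star (b * z) * (b * z) := by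
    rw [star_mul, hzs]
    nth_rewrite 2 [hb]
    noncomm_ring
  have h5 : n2 (b * z) = 0 := by
    have h6 := n2_sq (b * z)
    rw [← h4] at h6
    rw [h3, map_neg, Complex.neg_re] at h2
    have h7 := sq_nonneg (n2 (b * z))
    nlinarith
  have h6 : b * z = 0 := n2_eq_zero.1 h5
  have h7 : z * z = 0 := by
    nth_rewrite 1 [hb]
    rw [mul_assoc, h6, mul_zero]
  have h8 : z = 0 := by
    rw [← CStarRing.star_mul_self_eq_zero_iff, hzs]; exact h7
  have h9 : 0 ≤ y := by
    have := CFC.posPart_sub_negPart y hsa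
    rw [← hz, h8, sub_zero] at this
    rw [← this]; exact CFC.posPart_nonneg y
  obtain ⟨c, hc⟩ := CStarAlgebra.nonneg_iff_eq_star_mul_self.1 h9
  exact ⟨c, hc.symm⟩

end

section Tree

variable {M : Type u} [CStarAlgebra M] [TVN M] {S : Set M} {h : M → M}

/-- `d` is the Haar unitary of the tree of `h` below `e` -/
def IsTree (h : M → M) (e d : M) : Prop := T2 atTop (fun n => Dn h n e 0 (2 * π)) d

theorem IsTree.shift {e d : M} (hd : IsTree h e d) :
    T2 atTop (fun n => Dn h (n + 1) e 0 (2 * π)) d :=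
  T2.comp (x := fun n => Dn h n e 0 (2 * π)) (f := fun n => n + 1) hd (tendsto_add_atTop_nat 1)

theorem exists_isTree (hh : IsHalving S h) {e : M} (heS : Co S e) (he : IsProj e) :
    ∃ d : M, Co S d ∧ IsHaarIn e d ∧ IsTree h e d := by
  obtain ⟨d, h1, h2, h3⟩ := tree_limit hh heS he
  refine ⟨d, h1, h2, ?_⟩
  have hlim : Tendsto (fun k : ℕ => 2 * π / 2 ^ k) atTop (𝓝 0) := by
    have h1 := (tendsto_pow_atTop_nhds_zero_of_lt_one (by norm_num : (0:ℝ) ≤ 1/2)
      (by norm_num)).const_mul (2 * π)
    rw [mul_zero] at h1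
    refine h1.congr fun k => ?_
    rw [one_div, inv_pow, div_eq_mul_inv]
  exact T2.squeeze hlim fun k => by rw [n2_sub_comm]; exact h3 k

theorem IsTree.haar (hh : IsHalving S h) {e d : M} (heS : Co S e) (he : IsProj e)
    (hd : IsTree h e d) : Co S d ∧ IsHaarIn e d := by
  obtain ⟨d', h1, h2, h3⟩ := exists_isTree hh heS he
  have : d = d' := T2.unique hd h3
  rw [this]; exact ⟨h1, h2⟩

theorem Dn_norm_le (hh : IsHalving S h) {e : M} (heS : Co S e) (he : IsProj e) (n : ℕ) (θ w : ℝ) :
    ‖Dn h n e θ w‖ ≤ 1 := by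
  have h1 := he.norm_le
  rw [← (Dn_spec hh n e heS he θ w).2.2.2.1, CStarRing.norm_star_mul_self] at h1
  nlinarith [norm_nonneg (Dn h n e θ w)]

theorem Dn_step (hh : IsHalving S h) {e : M} (heS : Co S e) (he : IsProj e) (n : ℕ) (θ w : ℝ) :
    Dn h (n + 1) e θ w * h e = Dn h n (h e) θ (w / 2) ∧
    h e * Dn h (n + 1) e θ w = Dn h n (h e) θ (w / 2) ∧
    Dn h (n + 1) e θ w * (e - h e) = Dn h n (e - h e) (θ + w / 2) (w / 2) ∧
    (e - h e) * Dn h (n + 1) e θ w = Dn h n (e - h e) (θ + w / 2) (w / 2) := by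
  obtain ⟨h1, h2, h3, h4⟩ := hh e heS he
  obtain ⟨r1, r2, r3, r4, r5, r6, r7, r8⟩ := hh.rest heS he
  obtain ⟨-, a2, a3, -, -⟩ := Dn_spec hh n (h e) h1 h2 θ (w / 2)
  obtain ⟨-, b2, b3, -, -⟩ := Dn_spec hh n (e - h e) r1 r2 (θ + w / 2) (w / 2)
  simp only [Dn]
  set A := Dn h n (h e) θ (w / 2)
  set B := Dn h n (e - h e) (θ + w / 2) (w / 2)
  refine ⟨?_, ?_, ?_, ?_⟩
  · rw [add_mul, a3, ← b3, mul_assoc, r6, mul_zero, add_zero]
  · rw [mul_add, a2, ← b2, ← mul_assoc, r5, zero_mul, add_zero]
  · rw [add_mul, b3, ← a3, mul_assoc, r5, mul_zero, zero_add]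
  · rw [mul_add, b2, ← a2, ← mul_assoc, r6, zero_mul, zero_add]

theorem Dn_mul_self (hh : IsHalving S h) (n : ℕ) : ∀ (e : M), Co S e → IsProj e → ∀ θ w : ℝ,
    Dn h n e θ w * Dn h n e θ w = Dn h n e (2 * θ) (2 * w) := by
  induction n with
  | zero =>
    intro e heS he θ w
    simp only [Dn]
    rw [smul_mul_assoc, mul_smul_comm, smul_smul, he.mul, ← Complex.exp_add]
    congr 2
    push_cast; ring
  | succ n ih =>
    intro e heS he θ w
    obtain ⟨h1, h2, h3, h4⟩ := hh e heS he
    obtain ⟨r1, r2, r3, r4, r5, r6, r7, r8⟩ := hh.rest heS he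
    obtain ⟨-, a2, a3, -, -⟩ := Dn_spec hh n (h e) h1 h2 θ (w / 2)
    obtain ⟨-, b2, b3, -, -⟩ := Dn_spec hh n (e - h e) r1 r2 (θ + w / 2) (w / 2)
    have iA := ih (h e) h1 h2 θ (w / 2)
    have iB := ih (e - h e) r1 r2 (θ + w / 2) (w / 2)
    have e1 : Dn h n (h e) θ (w / 2) * Dn h n (e - h e) (θ + w / 2) (w / 2) = 0 := by
      rw [← a3, ← b2, mul_assoc, ← mul_assoc (h e), r5, zero_mul, mul_zero]
    have e2 : Dn h n (e - h e) (θ + w / 2) (w / 2) * Dn h n (h e) θ (w / 2) = 0 := by
      rw [← b3, ← a2, mul_assoc, ← mul_assoc (e - h e), r6, zero_mul, mul_zero]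
    simp only [Dn]
    rw [add_mul, mul_add, mul_add, e1, e2, add_zero, zero_add, iA, iB]
    congr 2 <;> ring

/-- passing to the first half -/
theorem IsTree.half (hh : IsHalving S h) {e d : M} (heS : Co S e) (he : IsProj e)
    (hd : IsTree h e d) : IsTree h (h e) (d * d * h e) := by
  have h1 := hd.shift
  have h2 := (T2.mul (fun k => Dn_norm_le hh heS he (k + 1) 0 (2 * π)) h1 h1).mul_const (h e)
  refine T2.congr' h2 (Eventually.of_forall fun n => ?_)
  show Dn h (n + 1) e 0 (2 * π) * Dn h (n + 1) e 0 (2 * π) * h e = Dn h n (h e) 0 (2 * π)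
  rw [Dn_mul_self hh (n + 1) e heS he, (Dn_step hh heS he n _ _).1]
  congr 1 <;> ring

theorem IsTree.comm (hh : IsHalving S h) {e d : M} (heS : Co S e) (he : IsProj e)
    (hd : IsTree h e d) : h e * d = d * h e := by
  have h1 := hd.shift
  have h2 := h1.const_mul (h e)
  have h3 := h1.mul_const (h e)
  have : (fun n => h e * Dn h (n + 1) e 0 (2 * π)) = fun n => Dn h (n + 1) e 0 (2 * π) * h e :=
    funext fun n => by rw [(Dn_step hh heS he n _ _).1, (Dn_step hh heS he n _ _).2.1]
  rw [this] at h2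
  exact h2.unique h3

theorem Dn_im (hh : IsHalving S h) (c : ℂ) (n : ℕ) : ∀ (e : M), Co S e → IsProj e → ∀ θ w : ℝ, 0 ≤ w →
    (∀ t, θ ≤ t → t ≤ θ + w → ∃ r : ℝ, 0 ≤ r ∧
      c * (Complex.exp (t * Complex.I) - conj (Complex.exp (t * Complex.I))) = r) →
    ∃ b, star b * b = c • (Dn h n e θ w - star (Dn h n e θ w)) := by
  let _ := CStarAlgebra.spectralOrder M
  have _ := CStarAlgebra.spectralOrderedRing M
  have key : ∀ n (e : M), Co S e → IsProj e → ∀ θ w : ℝ, 0 ≤ w →
    (∀ t, θ ≤ t → t ≤ θ + w → ∃ r : ℝ, 0 ≤ r ∧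
      c * (Complex.exp (t * Complex.I) - conj (Complex.exp (t * Complex.I))) = r) →
    0 ≤ c • (Dn h n e θ w - star (Dn h n e θ w)) := by
    intro n
    induction n with
    | zero =>
      intro e heS he θ w hw hr
      obtain ⟨r, hr0, hr1⟩ := hr θ le_rfl (by linarith)
      simp only [Dn]
      rw [star_smul, he.star, ← sub_smul, smul_smul, Complex.star_def, hr1]
      have : ((r : ℝ) : ℂ) • e = star ((Real.sqrt r : ℂ) • e) * ((Real.sqrt r : ℂ) • e) := by
        rw [star_smul, smul_mul_assoc, mul_smul_comm, smul_smul, he.star, he.mul, Complex.star_def,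
          Complex.conj_ofReal, ← Complex.ofReal_mul, Real.mul_self_sqrt hr0]
      rw [this]; exact star_mul_self_nonneg _
    | succ n ih =>
      intro e heS he θ w hw hr
      obtain ⟨h1, h2, h3, h4⟩ := hh e heS he
      obtain ⟨r1, r2, -⟩ := hh.rest heS he
      have iA := ih (h e) h1 h2 θ (w / 2) (by linarith) (fun t ht1 ht2 => hr t ht1 (by linarith))
      have iB := ih (e - h e) r1 r2 (θ + w / 2) (w / 2) (by linarith)
        (fun t ht1 ht2 => hr t (by linarith) (by linarith))
      have : c • (Dn h (n + 1) e θ w - star (Dn h (n + 1) e θ w)) =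
          c • (Dn h n (h e) θ (w / 2) - star (Dn h n (h e) θ (w / 2))) +
          c • (Dn h n (e - h e) (θ + w / 2) (w / 2) -
            star (Dn h n (e - h e) (θ + w / 2) (w / 2))) := by
        simp only [Dn, star_add]
        rw [← smul_add]; congr 1; abel
      rw [this]; exact add_nonneg iA iB
  intro e heS he θ w hw hr
  obtain ⟨b, hb⟩ := CStarAlgebra.nonneg_iff_eq_star_mul_self.1 (key n e heS he θ w hw hr)
  exact ⟨b, hb.symm⟩

theorem exp_im_eq (t : ℝ) : Complex.exp (t * Complex.I) - conj (Complex.exp (t * Complex.I)) =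
    2 * (Real.sin t : ℂ) * Complex.I := by
  rw [← Complex.exp_conj, map_mul, Complex.conj_ofReal, Complex.conj_I, Complex.exp_mul_I,
    mul_neg, ← neg_mul, Complex.exp_mul_I, Complex.cos_neg, Complex.sin_neg, Complex.ofReal_sin]
  ring

theorem IsTree.posA (hh : IsHalving S h) {e d : M} (heS : Co S e) (he : IsProj e)
    (hd : IsTree h e d) : ∃ c, star c * c = (-(Complex.I / 2)) • ((d - star d) * h e) := by
  obtain ⟨h1, h2, h3, h4⟩ := hh e heS he
  have hd1 := hd.shift
  have hlim := ((hd1.sub hd1.star).mul_const (h e)).smul (-(Complex.I / 2))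
  refine nonneg_of_T2 hlim fun k => ?_
  · obtain ⟨b, hb⟩ := Dn_im hh (-(Complex.I / 2)) k (h e) h1 h2 0 (2 * π / 2) (by positivity)
      (fun t ht1 ht2 => ⟨Real.sin t, Real.sin_nonneg_of_nonneg_of_le_pi ht1 (by linarith), by
        rw [exp_im_eq]
        calc -(Complex.I / 2) * (2 * (Real.sin t : ℂ) * Complex.I) =
            -(Real.sin t : ℂ) * (Complex.I * Complex.I) := by ring
          _ = _ := by rw [Complex.I_mul_I]; ring⟩)
    refine ⟨b, ?_⟩
    rw [hb]
    congr 1
    rw [sub_mul, (Dn_step hh heS he k _ _).1]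
    congr 1
    have := congrArg star (Dn_step hh heS he k 0 (2 * π)).2.1
    rw [star_mul, h2.star] at this
    exact this.symm

theorem IsTree.posB (hh : IsHalving S h) {e d : M} (heS : Co S e) (he : IsProj e)
    (hd : IsTree h e d) : ∃ c, star c * c = (Complex.I / 2) • ((d - star d) * (e - h e)) := by
  obtain ⟨h1, h2, h3, h4⟩ := hh e heS he
  obtain ⟨r1, r2, -⟩ := hh.rest heS he
  have hd1 := hd.shift
  have hlim := ((hd1.sub hd1.star).mul_const (e - h e)).smul (Complex.I / 2)
  refine nonneg_of_T2 hlim fun k => ?_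
  · obtain ⟨b, hb⟩ := Dn_im hh (Complex.I / 2) k (e - h e) r1 r2 (0 + 2 * π / 2) (2 * π / 2)
      (by positivity)
      (fun t ht1 ht2 => ⟨- Real.sin t, by
        have : 0 ≤ Real.sin (t - π) := Real.sin_nonneg_of_nonneg_of_le_pi (by linarith) (by linarith)
        rw [Real.sin_sub_pi] at this
        exact this, by
        rw [exp_im_eq]
        calc (Complex.I / 2) * (2 * (Real.sin t : ℂ) * Complex.I) =
            (Real.sin t : ℂ) * (Complex.I * Complex.I) := by ring
          _ = _ := by rw [Complex.I_mul_I]; push_cast; ring⟩)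
    refine ⟨b, ?_⟩
    rw [hb]
    congr 1
    rw [sub_mul, (Dn_step hh heS he k _ _).2.2.1]
    congr 1
    have := congrArg star (Dn_step hh heS he k 0 (2 * π)).2.2.2
    rw [star_mul, r2.star] at this
    exact this.symm

end Tree

end SCO
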