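import Pool.Agent.Work.MP_52dd0f_an_helper59.ConnU

/-!
# The tracial ultrapower as a C*-algebra (GNS construction)
-/

set_option autoImplicit false

namespace SCO

open Filter Topology
open scoped ComplexOrder ComplexConjugate BoundedContinuousFunction InnerProductSpace

universe u v

section ulim

theorem exists_ulim (𝒰 : Ultrafilter ℕ) {f : ℕ → ℂ} (hf : ∃ C, ∀ k, ‖f k‖ ≤ C) :
    ∃ c, Tendsto f (𝒰 : Filter ℕ) (𝓝 c) := by
  obtain ⟨C, hC⟩ := hf
  have hK : IsCompact (Metric.closedBall (0 : ℂ) C) := isCompact_closedBall _ _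
  obtain ⟨c, -, hc⟩ := hK.ultrafilter_le_nhds (𝒰.map f) (by
    rw [Ultrafilter.coe_map, le_principal_iff, mem_map]
    exact Eventually.of_forall fun k => by simpa using hC k)
  exact ⟨c, hc⟩

end ulim

/-- bounded sequences -/
def Sq (M : Type u) [CStarAlgebra M] : Type u := ℕ →ᵇ M

noncomputable instance (M : Type u) [CStarAlgebra M] : CStarAlgebra (Sq M) :=
  inferInstanceAs (CStarAlgebra (ℕ →ᵇ M))

namespace Sq

variable {M : Type u} [CStarAlgebra M]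

/-- the entries of a sequence -/
def ev (x : Sq M) (k : ℕ) : M := (show ℕ →ᵇ M from x) k

@[simp] theorem ev_mul (x y : Sq M) (k : ℕ) : (x * y).ev k = x.ev k * y.ev k := rfl
@[simp] theorem ev_add (x y : Sq M) (k : ℕ) : (x + y).ev k = x.ev k + y.ev k := rfl
@[simp] theorem ev_sub (x y : Sq M) (k : ℕ) : (x - y).ev k = x.ev k - y.ev k := rfl
@[simp] theorem ev_star (x : Sq M) (k : ℕ) : (star x).ev k = star (x.ev k) := rfl
@[simp] theorem ev_smul (c : ℂ) (x : Sq M) (k : ℕ) : (c • x).ev k = c • (x.ev k) := rfl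
@[simp] theorem ev_one (k : ℕ) : (1 : Sq M).ev k = 1 := rfl
@[simp] theorem ev_zero (k : ℕ) : (0 : Sq M).ev k = 0 := rfl
@[simp] theorem ev_pow (x : Sq M) (m k : ℕ) : (x ^ m).ev k = x.ev k ^ m := by
  induction m with
  | zero => simp
  | succ m ih => rw [pow_succ, ev_mul, ih, pow_succ]

theorem norm_ev_le (x : Sq M) (k : ℕ) : ‖x.ev k‖ ≤ ‖x‖ :=
  BoundedContinuousFunction.norm_coe_le_norm (show ℕ →ᵇ M from x) k

/-- constructor -/
noncomputable def mk (x : ℕ → M) (C : ℝ) (h : ∀ k, ‖x k‖ ≤ C) : Sq M :=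
  (BoundedContinuousFunction.ofNormedAddCommGroupDiscrete x C h : ℕ →ᵇ M)

@[simp] theorem ev_mk (x : ℕ → M) (C : ℝ) (h : ∀ k, ‖x k‖ ≤ C) (k : ℕ) : (mk x C h).ev k = x k :=
  rfl

end Sq

section Ultra

variable {M : Type u} [CStarAlgebra M] [TrC M] (𝒰 : Ultrafilter ℕ)

theorem exists_lim_tr (x : Sq M) : ∃ c, Tendsto (fun k => tr (x.ev k)) (𝒰 : Filter ℕ) (𝓝 c) :=
  exists_ulim 𝒰 ⟨‖x‖, fun k => (norm_tr_le_norm _).trans (x.norm_ev_le k)⟩

/-- the limit of traces -/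
noncomputable def phi : Sq M →ₗ[ℂ] ℂ where
  toFun x := (exists_lim_tr 𝒰 x).choose
  map_add' x y := by
    refine tendsto_nhds_unique (exists_lim_tr 𝒰 (x + y)).choose_spec ?_
    have := (exists_lim_tr 𝒰 x).choose_spec.add (exists_lim_tr 𝒰 y).choose_spec
    refine this.congr fun k => ?_
    rw [← map_add]; rfl
  map_smul' c x := by
    refine tendsto_nhds_unique (exists_lim_tr 𝒰 (c • x)).choose_spec ?_
    have := (exists_lim_tr 𝒰 x).choose_spec.const_mul c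
    refine this.congr fun k => ?_
    rw [← smul_eq_mul, ← map_smul]; rfl

theorem phi_spec (x : Sq M) : Tendsto (fun k => tr (x.ev k)) (𝒰 : Filter ℕ) (𝓝 (phi 𝒰 x)) :=
  (exists_lim_tr 𝒰 x).choose_spec

theorem phi_eq {x : Sq M} {c : ℂ} (h : Tendsto (fun k => tr (x.ev k)) (𝒰 : Filter ℕ) (𝓝 c)) :
    phi 𝒰 x = c := tendsto_nhds_unique (phi_spec 𝒰 x) h

theorem phi_comm (x y : Sq M) : phi 𝒰 (x * y) = phi 𝒰 (y * x) := by
  refine phi_eq 𝒰 ((phi_spec 𝒰 (y * x)).congr fun k => ?_)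
  show tr (y.ev k * x.ev k) = tr (x.ev k * y.ev k)
  rw [tr_comm]

theorem phi_star_mul (x : Sq M) :
    Tendsto (fun k => n2 (x.ev k) ^ 2) (𝒰 : Filter ℕ) (𝓝 (phi 𝒰 (star x * x)).re) := by
  have := (Complex.continuous_re.tendsto _).comp (phi_spec 𝒰 (star x * x))
  refine this.congr fun k => ?_
  rw [n2_sq]; rfl

theorem phi_nonneg (x : Sq M) : 0 ≤ phi 𝒰 (star x * x) := by
  have h := phi_spec 𝒰 (star x * x)
  rw [Complex.nonneg_iff]
  constructor
  · exact ge_of_tendsto' (phi_star_mul 𝒰 x) fun k => sq_nonneg _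
  · have h2 := (Complex.continuous_im.tendsto _).comp h
    refine tendsto_nhds_unique (f := fun _ : ℕ => (0 : ℝ)) (l := (𝒰 : Filter ℕ))
      tendsto_const_nhds (h2.congr fun k => ?_)
    exact tr_sq_im (x.ev k)

theorem phi_one : phi 𝒰 (1 : Sq M) = 1 :=
  phi_eq 𝒰 (tendsto_const_nhds.congr fun k => by
    show (1 : ℂ) = tr (1 : M)
    rw [tr_one])

noncomputable scoped instance sqOrder : PartialOrder (Sq M) := CStarAlgebra.spectralOrder _
noncomputable scoped instance sqOrdered : StarOrderedRing (Sq M) :=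
  CStarAlgebra.spectralOrderedRing _

noncomputable def phiP : Sq M →ₚ[ℂ] ℂ :=
  PositiveLinearMap.mk₀ (phi 𝒰) fun x hx => by
    obtain ⟨y, rfl⟩ := CStarAlgebra.nonneg_iff_eq_star_mul_self.1 hx
    exact phi_nonneg 𝒰 y

theorem phiP_apply (x : Sq M) : phiP 𝒰 x = phi 𝒰 x := rfl

/-- the Hilbert space -/
abbrev HS (M : Type u) [CStarAlgebra M] [TrC M] (𝒰 : Ultrafilter ℕ) : Type u :=
  (phiP (M := M) 𝒰).GNS

/-- the representation -/
noncomputable def rep : Sq M →⋆ₐ[ℂ] (HS M 𝒰 →L[ℂ] HS M 𝒰) := (phiP 𝒰).gnsStarAlgHom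

/-- vectors -/
noncomputable def vec (x : Sq M) : HS M 𝒰 := (((phiP 𝒰).toPreGNS x : (phiP (M := M) 𝒰).PreGNS) : HS M 𝒰)

theorem rep_vec (x y : Sq M) : rep 𝒰 x (vec 𝒰 y) = vec 𝒰 (x * y) := by
  show (phiP 𝒰).gnsNonUnitalStarAlgHom x _ = _
  rw [vec, PositiveLinearMap.gnsNonUnitalStarAlgHom_apply_coe]
  rfl

theorem inner_vec (x y : Sq M) : ⟪vec 𝒰 x, vec 𝒰 y⟫_ℂ = phi 𝒰 (star x * y) := by
  rw [vec, vec, UniformSpace.Completion.inner_coe]
  rfl

theorem dense_vec : Dense (Set.range (vec (M := M) 𝒰)) := by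
  have h := UniformSpace.Completion.denseRange_coe (α := (phiP (M := M) 𝒰).PreGNS)
  refine Dense.mono ?_ h
  rintro _ ⟨x, rfl⟩
  exact ⟨(phiP 𝒰).ofPreGNS x, rfl⟩

theorem norm_vec_sq (x : Sq M) : ‖vec 𝒰 x‖ ^ 2 = (phi 𝒰 (star x * x)).re := by
  rw [← inner_vec, inner_self_eq_norm_sq_to_K (𝕜 := ℂ)]
  norm_cast

/-- the vector state -/
noncomputable def trU : (HS M 𝒰 →L[ℂ] HS M 𝒰) →ₗ[ℂ] ℂ where
  toFun y := ⟪vec 𝒰 (1 : Sq M), y (vec 𝒰 1)⟫_ℂ
  map_add' x y := by rw [add_apply, inner_add_right]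
  map_smul' c x := by
    rw [smul_apply, inner_smul_right]; rfl

theorem trU_rep (x : Sq M) : trU 𝒰 (rep 𝒰 x) = phi 𝒰 x := by
  show ⟪vec 𝒰 (1 : Sq M), rep 𝒰 x (vec 𝒰 1)⟫_ℂ = _
  rw [rep_vec, inner_vec, star_one, one_mul, mul_one]

/-- the seminorm of the product -/
theorem phi_conj_le (x z : Sq M) : (phi 𝒰 (star (x * z) * (x * z))).re ≤
    ‖z‖ ^ 2 * (phi 𝒰 (star x * x)).re := by
  refine le_of_tendsto_of_tendsto' (phi_star_mul 𝒰 (x * z))
    ((phi_star_mul 𝒰 x).const_mul (‖z‖ ^ 2)) fun k => ?_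
  have h1 : n2 ((x * z).ev k) ≤ n2 (x.ev k) * ‖z.ev k‖ := n2_mul_le_right _ _
  have h2 : ‖z.ev k‖ ≤ ‖z‖ := z.norm_ev_le k
  calc n2 ((x * z).ev k) ^ 2 ≤ (n2 (x.ev k) * ‖z‖) ^ 2 := by
        apply pow_le_pow_left₀ (n2_nonneg _)
        exact h1.trans (mul_le_mul_of_nonneg_left h2 (n2_nonneg _))
    _ = _ := by ring

/-- equality in the representation -/
theorem rep_eq_zero_iff (x : Sq M) :
    rep 𝒰 x = 0 ↔ Tendsto (fun k => n2 (x.ev k)) (𝒰 : Filter ℕ) (𝓝 0) := by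
  have hiff : (phi 𝒰 (star x * x)).re = 0 ↔ Tendsto (fun k => n2 (x.ev k)) (𝒰 : Filter ℕ) (𝓝 0) := by
    have h := phi_star_mul 𝒰 x
    constructor
    · intro h0
      rw [h0] at h
      have := h.sqrt
      rw [Real.sqrt_zero] at this
      exact this.congr fun k => Real.sqrt_sq (n2_nonneg _)
    · intro h0
      have := h0.pow 2
      rw [zero_pow two_ne_zero] at this
      exact tendsto_nhds_unique h this
  rw [← hiff]
  constructor
  · intro h0
    have : rep 𝒰 (star x * x) = 0 := by rw [map_mul, h0, mul_zero]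
    rw [← trU_rep, this, map_zero, Complex.zero_re]
  · intro h0
    have h1 : ∀ z : Sq M, rep 𝒰 x (vec 𝒰 z) = 0 := by
      intro z
      rw [rep_vec, ← norm_eq_zero]
      have h2 := norm_vec_sq 𝒰 (x * z)
      have h3 := phi_conj_le 𝒰 x z
      rw [h0, mul_zero, ← h2] at h3
      have h4 := norm_nonneg (vec 𝒰 (x * z))
      nlinarith
    ext y
    have hcl : IsClosed {y : HS M 𝒰 | rep 𝒰 x y = 0} :=
      isClosed_eq (rep 𝒰 x).continuous continuous_const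
    have : (Set.range (vec (M := M) 𝒰)) ⊆ {y : HS M 𝒰 | rep 𝒰 x y = 0} := by
      rintro _ ⟨z, rfl⟩; exact h1 z
    have h5 := hcl.closure_subset_iff.2 this
    rw [(dense_vec 𝒰).closure_eq] at h5
    exact h5 (Set.mem_univ y)

theorem rep_eq_iff (x y : Sq M) : rep 𝒰 x = rep 𝒰 y ↔ Eq2 (𝒰 : Filter ℕ) x.ev y.ev := by
  rw [← sub_eq_zero, ← map_sub, rep_eq_zero_iff]; rfl

end Ultra

end SCO
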